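import Pool.Agent.H71.ZO.Reduce

/-!
# MP_4b9105_lc: the 0-1 law for open set mappings is a local statement

The 0-1 law for open set mappings (all `X`, all `θ`) is equivalent to its instance for one single
set `X₀ ⊇ ω₁` of size at least `2^ℵ₁` and one single `θ₀`.
-/

namespace Pool.Agent.Results.MP_4b9105_lc.LocalReduction

open Cardinal Ordinal Set
open Pool.Agent.Results.MP_4b9105_lc.CanonicalBounding
open Pool.Agent.H71.ZO

/-! ### A concrete instance -/

/-- The initial ordinal of the cardinal `2^ℵ₁`, as a set. -/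
noncomputable def k1 : ZFSet.{0} := ((2 : Cardinal.{0}) ^ ℵ₁).ord.toZFSet

theorem card_k1 : k1.card = 2 ^ ℵ₁ := by
  rw [k1, card_toZFSet, card_ord]

theorem w1_subset_k1 : w1 ⊆ k1 := by
  have h : (ω₁ : Ordinal.{0}) ≤ ((2 : Cardinal.{0}) ^ ℵ₁).ord := by
    rw [← ord_aleph, ord_le_ord]
    exact (cantor _).le
  intro z hz
  rw [w1, mem_toZFSet_iff] at hz
  rw [k1, mem_toZFSet_iff]
  obtain ⟨a, ha, rfl⟩ := hz
  exact ⟨a, ha.trans_le h, rfl⟩

theorem card_ctbl_le (X : ZFSet.{0}) (hX : ℵ₀ ≤ X.card) : (ctbl X).card ≤ X.card ^ ℵ₀ := by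
  have h1 : #(ctbl X : Set ZFSet.{0}) = lift.{1, 0} (ctbl X).card := ZFSet.cardinalMk_coe_sort
  have h2 : #(X : Set ZFSet.{0}) = lift.{1, 0} X.card := ZFSet.cardinalMk_coe_sort
  have hne : Nonempty (X : Set ZFSet.{0}) := by
    rw [← mk_ne_zero_iff, h2]
    intro h0
    rw [lift_eq_zero] at h0
    rw [h0] at hX
    exact absurd hX (not_le.2 aleph0_pos)
  let f : Option (ℕ → (X : Set ZFSet.{0})) → ZFSet.{0} := fun s => match s with
    | none => ∅
    | some s => ZFSet.range fun n => (s n).1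
  have hf : (ctbl X : Set ZFSet.{0}) ⊆ range f := by
    intro P hP
    obtain ⟨hPX, hPc⟩ := mem_ctbl.1 hP
    rcases (P : Set ZFSet.{0}).eq_empty_or_nonempty with he | hne'
    · refine ⟨none, ?_⟩
      change (∅ : ZFSet.{0}) = P
      ext z
      constructor
      · intro hz
        exact absurd hz (ZFSet.notMem_empty z)
      · intro hz
        have : z ∈ (P : Set ZFSet.{0}) := hz
        rw [he] at this
        exact this.elim
    · obtain ⟨s, hs⟩ := hPc.exists_eq_range hne'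
      have hsX : ∀ n, s n ∈ X := fun n => hPX (by
        have : s n ∈ (P : Set ZFSet.{0}) := by rw [hs]; exact mem_range_self n
        exact this)
      refine ⟨some fun n => ⟨s n, hsX n⟩, ?_⟩
      change ZFSet.range (fun n => s n) = P
      ext z
      rw [ZFSet.mem_range]
      have : z ∈ (P : Set ZFSet.{0}) ↔ z ∈ range s := by rw [hs]
      exact this.symm
  have h3 : #(ctbl X : Set ZFSet.{0}) ≤ #(Option (ℕ → (X : Set ZFSet.{0}))) :=
    (mk_le_mk_of_subset hf).trans mk_range_le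
  have h5 : #(ℕ → (X : Set ZFSet.{0})) = lift.{1, 0} (X.card ^ ℵ₀) := by
    rw [lift_power, lift_aleph0, ← h2]
    simp
  have h6 : ℵ₀ ≤ lift.{1, 0} (X.card ^ ℵ₀) := by
    rw [aleph0_le_lift]
    exact hX.trans (self_le_power _ one_le_aleph0)
  rw [h1, mk_option, h5, add_one_eq h6, Cardinal.lift_le] at h3
  exact h3

theorem ctbl_k1_mem : ctbl k1 ∈ H (Order.succ (2 ^ ℵ₁)) := by
  have hinf : ℵ₀ ≤ (2 : Cardinal.{0}) ^ ℵ₁ := (aleph0_le_aleph 1).trans (cantor _).le
  refine ⟨k1 ∪ ctbl k1, ?_, ?_, ?_⟩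
  · intro y hy
    rw [ZFSet.mem_union] at hy
    rcases hy with hy | hy
    · intro z hz
      rw [ZFSet.mem_union]
      exact Or.inl ((ZFSet.isOrdinal_toZFSet _).isTransitive y hy hz)
    · intro z hz
      rw [ZFSet.mem_union]
      exact Or.inl ((mem_ctbl.1 hy).1 hz)
  · intro z hz
    rw [ZFSet.mem_union]
    exact Or.inr hz
  · rw [Order.lt_succ_iff]
    refine ZFSet.card_union_le.trans ?_
    have h1 := card_ctbl_le k1 (by rw [card_k1]; exact hinf)
    rw [card_k1, ← power_mul, aleph_mul_aleph0] at h1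
    rw [card_k1]
    exact (add_le_add_right h1 _).trans (by rw [add_eq_self hinf])

/-- **The 0-1 law for open set mappings is a local statement.** For a set `X₀ ⊇ ω₁` and a regular
`θ₀` with `[X₀]^ω ∈ H(θ₀)`, the instance of the law at `(X₀, θ₀)` implies its instance at every
`(X, θ)` with `min (|X|, 2^ℵ₁) ≤ |X₀|`. Hence the full law is equivalent to its single instance
at `X₀ = 2^ℵ₁` and `θ₀ = (2^ℵ₁)⁺`. -/
theorem result :
    (∀ (X0 : ZFSet.{0}) (θ0 : Cardinal.{0}), w1 ⊆ X0 → θ0.IsRegular → ctbl X0 ∈ H θ0 →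
      ZeroOneLawAt X0 θ0 →
      ∀ (X : ZFSet.{0}) (θ : Cardinal.{0}), ℵ₀ < X.card → θ.IsRegular → ctbl X ∈ H θ →
        min X.card (2 ^ ℵ₁) ≤ X0.card → ZeroOneLawAt X θ) ∧
    (ZeroOneLaw ↔ ZeroOneLawAt k1 (Order.succ (2 ^ ℵ₁))) := by
  have hr : (Order.succ ((2 : Cardinal.{0}) ^ ℵ₁)).IsRegular :=
    isRegular_succ ((aleph0_le_aleph 1).trans (cantor _).le)
  refine ⟨fun X0 θ0 hw hθ0 hH0 h X θ hX _ hH hc =>
    reduction hw hH0 (sigLaw_of_law hθ0.aleph0_le hH0 h) hX hH hc, ?_, ?_⟩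
  · intro h
    exact h k1 _ (aleph0_lt_of_w1_subset w1_subset_k1) hr ctbl_k1_mem
  · intro h X θ hX _ hH
    refine reduction w1_subset_k1 ctbl_k1_mem (sigLaw_of_law hr.aleph0_le ctbl_k1_mem h) hX hH ?_
    rw [card_k1]
    exact min_le_right _ _

end Pool.Agent.Results.MP_4b9105_lc.LocalReduction
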