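import Mathlib

/-!
# MP_4b9105_lc: the 0-1 law for open set mappings and canonical functions

Everything is literal: sets are the elements of Mathlib's `ZFSet`, `H θ` is the set of sets
hereditarily of cardinality `< θ`, elementary submodels are Mathlib's elementary substructures of
`(H θ, ∈)`.
-/

namespace Pool.Agent.Results.MP_4b9105_lc.CanonicalBounding

open Cardinal Ordinal Set

/-- The only symbol of the language of set theory: a binary relation symbol. -/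
inductive MemRel : ℕ → Type
  | mem : MemRel 2

/-- The language of set theory. -/
def setLang : FirstOrder.Language.{0, 0} := ⟨fun _ => Empty, MemRel⟩

/-- `H(θ)`: the sets which are contained in a transitive set of cardinality `< θ`. -/
def H (θ : Cardinal.{0}) : Set ZFSet.{0} :=
  {x | ∃ t : ZFSet.{0}, t.IsTransitive ∧ x ⊆ t ∧ t.card < θ}

/-- `(H(θ), ∈)` as a first order structure. -/
instance (θ : Cardinal.{0}) : setLang.Structure (H θ) where
  funMap := fun f _ => f.elim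
  RelMap := fun {_} r => match r with
    | MemRel.mem => fun v => (v 0).1 ∈ (v 1).1

/-- `M` is a countable elementary submodel of `(H(θ), ∈)`. -/
def IsCtblElem (θ : Cardinal.{0}) (M : Set ZFSet.{0}) : Prop :=
  M.Countable ∧ ∃ S : setLang.ElementarySubstructure (H θ), Subtype.val '' (S : Set (H θ)) = M

/-- A club in `H(θ)`: a closed unbounded set of countable subsets of `H(θ)` which consists of
elementary submodels of `H(θ)`. -/
structure IsClubH (θ : Cardinal.{0}) (D : Set (Set ZFSet.{0})) : Prop where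
  elem : ∀ M ∈ D, IsCtblElem θ M
  closed : ∀ M : ℕ → Set ZFSet.{0}, (∀ n, M n ⊆ M (n + 1)) → (∀ n, M n ∈ D) → (⋃ n, M n) ∈ D
  unbounded : ∀ A : Set ZFSet.{0}, A.Countable → A ⊆ H θ → ∃ M ∈ D, A ⊆ M

/-- The set `[X]^ω` of the countable subsets of `X`. -/
def ctbl (X : ZFSet.{0}) : ZFSet.{0} := ZFSet.sep (fun P => P.card ≤ ℵ₀) X.powerset

/-- A club in `[X]^ω`. -/
structure IsClubX (X E : ZFSet.{0}) : Prop where
  subset : E ⊆ ctbl X
  closed : ∀ P : ℕ → ZFSet.{0}, (∀ n, P n ⊆ P (n + 1)) → (∀ n, P n ∈ E) → ZFSet.iUnion P ∈ E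
  unbounded : ∀ Q ∈ ctbl X, ∃ P ∈ E, Q ⊆ P

/-- `U ⊆ [X]^ω` is open: it is a union of basic open sets
`[a, N] = {Q ∈ [X]^ω : a ⊆ Q ⊆ N}` with `a` finite and `N ∈ [X]^ω`. -/
def IsOpenX (X : ZFSet.{0}) (U : Set ZFSet.{0}) : Prop :=
  ∀ P ∈ U, ∃ a N : ZFSet.{0}, a.card < ℵ₀ ∧ N ∈ ctbl X ∧ a ⊆ P ∧ P ⊆ N ∧
    ∀ Q ∈ ctbl X, a ⊆ Q → Q ⊆ N → Q ∈ U

/-- The von Neumann ordinal `ω₁`. -/
noncomputable def w1 : ZFSet.{0} := (ω₁ : Ordinal.{0}).toZFSet

/-- `P'` is an end extension of `P`: `P ⊆ P'` and `P' ∩ ω₁ = P ∩ ω₁`. -/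
def EndExt (P P' : Set ZFSet.{0}) : Prop := P ⊆ P' ∧ P' ∩ w1 = P ∩ w1

/-- `S`, with domain `D`, is an open set mapping for `X` and `θ`. -/
structure IsOpenMapping (X : ZFSet.{0}) (θ : Cardinal.{0}) (D : Set (Set ZFSet.{0}))
    (S : Set ZFSet.{0} → Set ZFSet.{0}) : Prop where
  club : IsClubH θ D
  mem : ∀ M ∈ D, X ∈ M
  subset : ∀ M ∈ D, S M ⊆ ctbl X
  isOpen : ∀ M ∈ D, IsOpenX X (S M)

/-- The 0-1 law for open set mappings, for given `X` and `θ`. -/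
def ZeroOneLawAt (X : ZFSet.{0}) (θ : Cardinal.{0}) : Prop :=
  ∀ (D : Set (Set ZFSet.{0})) (S : Set ZFSet.{0} → Set ZFSet.{0}), IsOpenMapping X θ D S →
    (∀ M ∈ D, ∀ P ∈ S M, ∀ P' ∈ ctbl X, EndExt P P' → P' ∈ S M) →
    (∀ M ∈ D, ∀ M' ∈ D, EndExt M M' → S M' ∩ M = S M ∩ M) →
    ∃ D' ⊆ D, IsClubH θ D' ∧ ∀ M ∈ D', ∃ E ∈ M, IsClubX X E ∧
      ((∀ P ∈ E, P ∈ M → P ∈ S M) ∨ (∀ P ∈ E, P ∈ M → P ∉ S M))

/-- The 0-1 law for open set mappings. -/
def ZeroOneLaw : Prop :=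
  ∀ (X : ZFSet.{0}) (θ : Cardinal.{0}), ℵ₀ < X.card → θ.IsRegular → ctbl X ∈ H θ →
    ZeroOneLawAt X θ

/-- Every function from `ω₁` to `ω₁` is bounded on a club by the canonical function
`ξ ↦ otp (e '' ξ)` of some ordinal `η < ω₂` (with `e` a surjection of `ω₁` onto `η`). -/
def BoundedByCanonical : Prop :=
  ∀ f : (ω₁ : Ordinal.{0}).ToType → Ordinal.{0}, (∀ ξ, f ξ < ω₁) →
    ∃ η : Ordinal.{0}, η < ω_ 2 ∧ ∃ e : (ω₁ : Ordinal.{0}).ToType → η.ToType,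
      Function.Surjective e ∧ ∃ C : Set (ω₁ : Ordinal.{0}).ToType, IsClub C ∧
        ∀ ξ ∈ C, f ξ < typeLT (e '' Set.Iio ξ)


/-! ### Closure under a finitary operation with countable values -/

section Clo

variable {α : Type*}

/-- The closure of `A` under `G`. -/
def clo (G : Finset α → Set α) (A : Set α) : Set α :=
  ⋂₀ {B | A ⊆ B ∧ ∀ a : Finset α, ↑a ⊆ B → G a ⊆ B}

theorem subset_clo (G : Finset α → Set α) (A : Set α) : A ⊆ clo G A :=
  subset_sInter fun _ h => h.1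

theorem clo_closed (G : Finset α → Set α) (A : Set α) (a : Finset α) (ha : ↑a ⊆ clo G A) :
    G a ⊆ clo G A :=
  subset_sInter fun _ h => h.2 a (ha.trans (sInter_subset_of_mem h))

theorem clo_min {G : Finset α → Set α} {A B : Set α} (h : A ⊆ B)
    (h' : ∀ a : Finset α, ↑a ⊆ B → G a ⊆ B) : clo G A ⊆ B :=
  sInter_subset_of_mem ⟨h, h'⟩

theorem clo_mono (G : Finset α → Set α) {A B : Set α} (h : A ⊆ B) : clo G A ⊆ clo G B :=
  clo_min (h.trans (subset_clo G B)) (clo_closed G B)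

theorem countable_finset_subset {s : Set α} (hs : s.Countable) :
    {a : Finset α | ↑a ⊆ s}.Countable := by
  have : Countable s := hs.to_subtype
  refine (countable_range (fun b : Finset s => b.map (Function.Embedding.subtype _))).mono ?_
  intro a ha
  classical
  refine ⟨a.subtype (· ∈ s), ?_⟩
  change (a.subtype (· ∈ s)).map (Function.Embedding.subtype _) = a
  rw [Finset.subtype_map]
  exact Finset.filter_true_of_mem fun x hx => ha hx

theorem clo_countable (G : Finset α → Set α) (hG : ∀ a, (G a).Countable) {A : Set α}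
    (hA : A.Countable) : (clo G A).Countable := by
  let T : ℕ → Set α := fun n => Nat.rec A (fun _ B => B ∪ ⋃ a ∈ {a : Finset α | ↑a ⊆ B}, G a) n
  have hT : ∀ n, (T n).Countable := by
    intro n
    induction n with
    | zero => exact hA
    | succ n ih =>
      exact ih.union ((countable_finset_subset ih).biUnion fun a _ => hG a)
  have hmono : Monotone T := monotone_nat_of_le_succ fun n => subset_union_left
  refine (countable_iUnion hT).mono (clo_min ?_ ?_)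
  · exact subset_iUnion T 0
  · intro a ha
    obtain ⟨n, hn⟩ : ∃ n, (a : Set α) ⊆ T n := by
      classical
      induction a using Finset.induction_on with
      | empty => exact ⟨0, by simp⟩
      | insert x s _ ih =>
        rw [Finset.coe_insert, insert_subset_iff] at ha
        obtain ⟨n, hn⟩ := ih ha.2
        obtain ⟨m, hm⟩ := mem_iUnion.1 ha.1
        refine ⟨max m n, ?_⟩
        rw [Finset.coe_insert, insert_subset_iff]
        exact ⟨hmono (le_max_left _ _) hm, hn.trans (hmono (le_max_right _ _))⟩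
    refine Subset.trans ?_ (subset_iUnion T (n + 1))
    exact subset_union_of_subset_right (subset_biUnion_of_mem (u := fun a => G a) hn) _

theorem clo_finitary (G : Finset α → Set α) {A : Set α} {x : α} (hx : x ∈ clo G A) :
    ∃ a : Finset α, ↑a ⊆ A ∧ x ∈ clo G (a : Set α) := by
  have key : clo G A ⊆ {x | ∃ a : Finset α, ↑a ⊆ A ∧ x ∈ clo G (a : Set α)} := by
    refine clo_min ?_ ?_
    · intro y hy
      exact ⟨{y}, by simpa using hy, subset_clo G _ (by simp)⟩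
    · intro b hb
      classical
      obtain ⟨a, haA, hba⟩ : ∃ a : Finset α, (a : Set α) ⊆ A ∧ (b : Set α) ⊆ clo G (a : Set α) := by
        induction b using Finset.induction_on with
        | empty => exact ⟨∅, by simp, by simp⟩
        | insert y s _ ih =>
          rw [Finset.coe_insert, insert_subset_iff] at hb
          obtain ⟨a, ha, hsa⟩ := ih hb.2
          obtain ⟨a', ha', hya'⟩ := hb.1
          refine ⟨a ∪ a', by simpa using ⟨ha, ha'⟩, ?_⟩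
          rw [Finset.coe_insert, insert_subset_iff]
          exact ⟨clo_mono G (by simp) hya', hsa.trans (clo_mono G (by simp))⟩
      exact fun y hy => ⟨a, haA, clo_closed G _ b hba hy⟩
  exact key hx

end Clo

/-! ### Kueker's theorem for clubs in `H(θ)` -/

theorem IsCtblElem.subset {θ : Cardinal.{0}} {M : Set ZFSet.{0}} (h : IsCtblElem θ M) :
    M ⊆ H θ := by
  obtain ⟨_, S, rfl⟩ := h
  rintro _ ⟨x, _, rfl⟩
  exact x.2

theorem kueker {θ : Cardinal.{0}} {D : Set (Set ZFSet.{0})} (hD : IsClubH θ D) :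
    ∃ F : Finset ZFSet.{0} → Set ZFSet.{0}, (∀ a, (F a).Countable) ∧
      (∀ a : Finset ZFSet.{0}, (a : Set ZFSet.{0}) ⊆ H θ → F a ⊆ H θ) ∧
      ∀ M : Set ZFSet.{0}, M.Countable → M ⊆ H θ →
        (∀ a : Finset ZFSet.{0}, (a : Set ZFSet.{0}) ⊆ M → F a ⊆ M) → M ∈ D := by
  classical
  obtain ⟨U, hU1, hU2⟩ : ∃ U : Set ZFSet.{0} → Set ZFSet.{0}, (∀ A, (U A).Countable) ∧
      ∀ A : Set ZFSet.{0}, A.Countable → A ⊆ H θ → U A ∈ D ∧ A ⊆ U A := by
    refine ⟨fun A => if h : A.Countable ∧ A ⊆ H θ then (hD.unbounded A h.1 h.2).choose else ∅,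
      ?_, ?_⟩
    · intro A
      dsimp only
      split_ifs with h
      · exact (hD.elem _ (hD.unbounded A h.1 h.2).choose_spec.1).1
      · exact countable_empty
    · intro A h1 h2
      dsimp only
      rw [dif_pos (show A.Countable ∧ A ⊆ H θ from ⟨h1, h2⟩)]
      exact (hD.unbounded A h1 h2).choose_spec
  let F : Finset ZFSet.{0} → Set ZFSet.{0} := fun a =>
    a.strongInduction (fun a ih => U (↑a ∪ ⋃ b, ⋃ h : b ⊂ a, ih b h))
  have hF : ∀ a, F a = U (↑a ∪ ⋃ b, ⋃ _ : b ⊂ a, F b) := by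
    intro a
    show Finset.strongInduction _ a = _
    rw [Finset.strongInduction_eq]
  have hFc : ∀ a, (F a).Countable := by
    intro a
    rw [hF]
    exact hU1 _
  have hcount : ∀ a : Finset ZFSet.{0},
      ((a : Set ZFSet.{0}) ∪ ⋃ b, ⋃ _ : b ⊂ a, F b).Countable := by
    intro a
    refine a.countable_toSet.union ?_
    have : {b : Finset ZFSet.{0} | b ⊂ a}.Countable :=
      (a.ssubsets.finite_toSet.subset fun b hb => by simpa using hb).countable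
    exact this.biUnion fun b _ => hFc b
  have hFD : ∀ a : Finset ZFSet.{0}, (a : Set ZFSet.{0}) ⊆ H θ → F a ∈ D := by
    intro a
    induction a using Finset.strongInduction with
    | H a ih =>
      intro ha
      rw [hF]
      refine (hU2 _ (hcount a) ?_).1
      refine union_subset ha (iUnion_subset fun b => iUnion_subset fun hb => ?_)
      exact (hD.elem _ (ih b hb ((Finset.coe_subset.2 hb.1).trans ha))).subset
  have hFH : ∀ a : Finset ZFSet.{0}, (a : Set ZFSet.{0}) ⊆ H θ → F a ⊆ H θ :=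
    fun a ha => (hD.elem _ (hFD a ha)).subset
  have hsub : ∀ a : Finset ZFSet.{0}, (a : Set ZFSet.{0}) ⊆ H θ →
      (a : Set ZFSet.{0}) ∪ (⋃ b, ⋃ _ : b ⊂ a, F b) ⊆ F a := by
    intro a ha
    conv_rhs => rw [hF]
    refine (hU2 _ (hcount a) ?_).2
    refine union_subset ha (iUnion_subset fun b => iUnion_subset fun hb => ?_)
    exact hFH b ((Finset.coe_subset.2 hb.1).trans ha)
  have hmono : ∀ a b : Finset ZFSet.{0}, (a : Set ZFSet.{0}) ⊆ H θ → b ⊆ a → F b ⊆ F a := by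
    intro a b ha hb
    rcases eq_or_ssubset_of_subset hb with rfl | hb
    · exact Subset.rfl
    · refine Subset.trans ?_ (hsub a ha)
      refine subset_union_of_subset_right ?_ _
      intro x hx
      exact mem_iUnion.2 ⟨b, mem_iUnion.2 ⟨hb, hx⟩⟩
  refine ⟨F, hFc, hFH, fun M hMc hMH hM => ?_⟩
  rcases M.eq_empty_or_nonempty with rfl | hne
  · have h0 : F ∅ = ∅ := subset_empty_iff.1 (hM ∅ (by simp))
    rw [← h0]
    exact hFD ∅ (by simp)
  · obtain ⟨s, hs⟩ := hMc.exists_eq_range hne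
    let a : ℕ → Finset ZFSet.{0} := fun n => (Finset.range n).image s
    have haM : ∀ n, (a n : Set ZFSet.{0}) ⊆ M := by
      intro n x hx
      simp only [a, Finset.coe_image, mem_image] at hx
      obtain ⟨i, _, rfl⟩ := hx
      rw [hs]
      exact mem_range_self i
    have hEq : M = ⋃ n, F (a n) := by
      apply Subset.antisymm
      · intro x hx
        rw [hs] at hx
        obtain ⟨i, rfl⟩ := hx
        refine mem_iUnion.2 ⟨i + 1, ?_⟩
        apply hsub _ ((haM _).trans hMH)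
        left
        simp only [a, Finset.coe_image, mem_image]
        exact ⟨i, by simp, rfl⟩
      · exact iUnion_subset fun n => hM _ (haM n)
    rw [hEq]
    refine hD.closed _ (fun n => ?_) (fun n => hFD _ ((haM n).trans hMH))
    refine hmono _ _ ((haM _).trans hMH) ?_
    exact Finset.image_subset_image (Finset.range_subset_range.2 (Nat.le_succ n))


/-! ### The countable elementary submodels form a club -/

open FirstOrder in
theorem chain_elem {θ : Cardinal.{0}} (M : ℕ → Set ZFSet.{0}) (hmono : ∀ n, M n ⊆ M (n + 1))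
    (hM : ∀ n, IsCtblElem θ (M n)) : IsCtblElem θ (⋃ n, M n) := by
  have hmono' : Monotone M := monotone_nat_of_le_succ hmono
  refine ⟨countable_iUnion fun n => (hM n).1, ?_⟩
  choose S hS using fun n => (hM n).2
  have hmem : ∀ n (x : H θ), x ∈ S n ↔ x.1 ∈ M n := by
    intro n x
    rw [← hS n]
    constructor
    · intro hx
      exact ⟨x, hx, rfl⟩
    · rintro ⟨y, hy, hyx⟩
      rwa [← Subtype.ext hyx]
  let T : setLang.Substructure (H θ) :=
    { carrier := {x | x.1 ∈ ⋃ n, M n}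
      fun_mem := fun f => f.elim }
  have hT : ∀ x : H θ, x ∈ T ↔ x.1 ∈ ⋃ n, M n := fun _ => Iff.rfl
  refine ⟨T.toElementarySubstructure ?_, ?_⟩
  · intro n φ x a ha
    obtain ⟨k, hk⟩ : ∃ k, ∀ i, ((x i : T) : H θ).1 ∈ M k := by
      have h1 : ∀ i, ∃ k, ((x i : T) : H θ).1 ∈ M k := fun i => mem_iUnion.1 ((hT _).1 (x i).2)
      choose k hk using h1
      refine ⟨Finset.univ.sup k, fun i => hmono' (Finset.le_sup (Finset.mem_univ i)) (hk i)⟩
    let y : Fin n → S k := fun i => ⟨(x i : H θ), (hmem k _).2 (hk i)⟩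
    have h2 : (φ.ex).Realize (default : Empty → H θ) (Subtype.val ∘ y : Fin n → H θ) := by
      rw [Language.BoundedFormula.realize_ex]
      refine ⟨a, ?_⟩
      exact ha
    have h3 : (φ.ex).Realize (default : Empty → S k) y := by
      have h4 := (S k).subtype.map_boundedFormula φ.ex (default : Empty → S k) y
      have h6 : (⇑(S k).subtype ∘ (default : Empty → S k)) = (default : Empty → H θ) :=
        funext fun x => x.elim
      rw [h6] at h4
      exact h4.1 h2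
    rw [Language.BoundedFormula.realize_ex] at h3
    obtain ⟨b, hb⟩ := h3
    have h5 := (S k).subtype.map_boundedFormula φ (default : Empty → S k) (Fin.snoc y b)
    have h6 : (⇑(S k).subtype ∘ (default : Empty → S k)) = (default : Empty → H θ) :=
      funext fun x => x.elim
    have h7 : (⇑(S k).subtype ∘ (Fin.snoc y b : Fin (n + 1) → S k)) =
        (Fin.snoc (Subtype.val ∘ x) (b : H θ) : Fin (n + 1) → H θ) := by
      ext i
      refine Fin.lastCases ?_ (fun j => ?_) i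
      · simp
      · simp [y]
    rw [h6, h7] at h5
    exact ⟨⟨(b : H θ), (hT _).2 (mem_iUnion.2 ⟨k, (hmem k _).1 b.2⟩)⟩, h5.2 hb⟩
  · ext z
    constructor
    · rintro ⟨x, hx, rfl⟩
      exact hx
    · intro hz
      obtain ⟨n, hn⟩ := mem_iUnion.1 hz
      exact ⟨⟨z, (hM n).subset hn⟩, hz, rfl⟩

theorem natOrd_mem_H {θ : Cardinal.{0}} (hθ : ℵ₀ ≤ θ) (n : ℕ) :
    ((n : Ordinal.{0}).toZFSet) ∈ H θ := by
  refine ⟨(n : Ordinal.{0}).toZFSet, (ZFSet.isOrdinal_toZFSet _).isTransitive, fun _ h => h, ?_⟩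
  rw [card_toZFSet, Ordinal.card_nat]
  exact (Cardinal.natCast_lt_aleph0).trans_le hθ

instance : Countable (Σ n, setLang.Functions n) := by
  refine ⟨fun x => x.2.elim, ?_⟩
  intro x
  exact x.2.elim

instance : Countable (Σ n, setLang.Relations n) := by
  refine ⟨fun _ => 0, ?_⟩
  rintro ⟨n, x⟩ ⟨m, y⟩ _
  cases x
  cases y
  rfl

theorem card_setLang : setLang.card ≤ ℵ₀ := by
  rw [FirstOrder.Language.card, FirstOrder.Language.Symbols, Cardinal.mk_le_aleph0_iff]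
  infer_instance

theorem exists_elem {θ : Cardinal.{0}} (hθ : ℵ₀ ≤ θ) (A : Set ZFSet.{0}) (hA : A.Countable)
    (hAH : A ⊆ H θ) : ∃ M, IsCtblElem θ M ∧ A ⊆ M := by
  have hs : (Subtype.val ⁻¹' A : Set (H θ)).Countable := hA.preimage Subtype.val_injective
  obtain ⟨S, hS, hSc⟩ := FirstOrder.Language.exists_elementarySubstructure_card_eq.{0, 0, 1, 0}
    setLang (Subtype.val ⁻¹' A : Set (H θ)) ℵ₀ le_rfl
    (by simpa using hs.le_aleph0) (by simpa using card_setLang) (by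
      rw [Cardinal.lift_aleph0, Cardinal.aleph0_le_lift]
      rw [Cardinal.aleph0_le_mk_iff]
      refine Infinite.of_injective (fun n : ℕ => (⟨_, natOrd_mem_H hθ n⟩ : H θ)) ?_
      intro m n hmn
      have := toZFSet_injective (Subtype.ext_iff.1 hmn)
      exact_mod_cast this)
  refine ⟨Subtype.val '' (S : Set (H θ)), ⟨?_, S, rfl⟩, ?_⟩
  · refine Set.Countable.image ?_ _
    have : #S ≤ ℵ₀ := by
      simpa using hSc.le
    exact (Cardinal.mk_le_aleph0_iff.1 this).to_set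
  · intro x hx
    exact ⟨⟨x, hAH hx⟩, hS hx, rfl⟩

theorem club_elem {θ : Cardinal.{0}} (hθ : ℵ₀ ≤ θ) {X : ZFSet.{0}} (hX : X ∈ H θ) :
    IsClubH θ {M | IsCtblElem θ M ∧ X ∈ M} where
  elem := fun _ h => h.1
  closed := fun M h1 h2 => ⟨chain_elem M h1 fun n => (h2 n).1, mem_iUnion.2 ⟨0, (h2 0).2⟩⟩
  unbounded := by
    intro A hA hAH
    obtain ⟨M, hM, hAM⟩ := exists_elem hθ (insert X A) (hA.insert X)
      (insert_subset_iff.2 ⟨hX, hAH⟩)
    exact ⟨M, ⟨hM, hAM (mem_insert _ _)⟩, (subset_insert _ _).trans hAM⟩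


/-! ### The well orders `ω₁` and `ω₂` -/

/-- The well order `ω₁`. -/
abbrev W1 : Type := (ω₁ : Ordinal.{0}).ToType

/-- The well order `ω₂`. -/
abbrev W2 : Type := (ω_ 2 : Ordinal.{0}).ToType

theorem cof_W1 : Order.cof W1 = ℵ₁ := by
  rw [cof_toType, cof_omega_one]

theorem cof_W2 : Order.cof W2 = ℵ_ 2 := by
  rw [cof_toType]
  have := cof_omega_add_one 1
  rwa [one_add_one_eq_two] at this

theorem bdd_W1 (s : Set W1) (hs : s.Countable) : ∃ b, ∀ x ∈ s, x < b := by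
  by_contra! h
  have h1 : IsCofinal s := fun b => h b
  have h2 := Order.cof_le h1
  rw [cof_W1] at h2
  have h3 : #s ≤ ℵ₀ := hs.le_aleph0
  exact absurd (h2.trans h3) (by simp)

theorem bdd_W2 (s : Set W2) (hs : #s ≤ ℵ₁) : ∃ b, ∀ x ∈ s, x < b := by
  by_contra! h
  have h1 : IsCofinal s := fun b => h b
  have h2 := Order.cof_le h1
  rw [cof_W2] at h2
  have h3 : ℵ_ 2 ≤ ℵ₁ := h2.trans hs
  rw [Cardinal.aleph_le_aleph] at h3
  exact absurd h3 (by norm_num)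

theorem countable_Iio_W1 (x : W1) : (Iio x).Countable := by
  rw [← le_aleph0_iff_set_countable]
  have h := typein_lt_self x
  rw [← Order.lt_succ_iff, succ_aleph0]
  have : #(Iio x) = (typein (α := W1) (· < ·) x).card := rfl
  rw [this, ← lt_ord, ord_aleph]
  exact h

theorem card_Iio_W2 (x : W2) : #(Iio x) ≤ ℵ₁ := by
  have h := typein_lt_self x
  have h2 : Order.succ ℵ₁ = ℵ_ 2 := by
    rw [Cardinal.succ_aleph, one_add_one_eq_two]
  rw [← Order.lt_succ_iff, h2]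
  have : #(Iio x) = (typein (α := W2) (· < ·) x).card := rfl
  rw [this, ← lt_ord, ord_aleph]
  exact h

instance : Nonempty W1 := by
  obtain ⟨b, _⟩ := bdd_W1 ∅ countable_empty
  exact ⟨b⟩

instance : Nonempty W2 := by
  obtain ⟨b, _⟩ := bdd_W2 ∅ (by simp)
  exact ⟨b⟩

theorem card_W1 : #W1 = ℵ₁ := by
  rw [mk_toType, card_omega]

theorem closure_points_club (k : W1 → Set W1) (hk : ∀ ζ, (k ζ).Countable) :
    IsClub {ξ : W1 | (∃ ζ, ζ < ξ) ∧ ∀ ζ < ξ, ∀ η ∈ k ζ, η < ξ} := by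
  refine ⟨?_, ?_⟩
  · intro d hd hne _ a ha
    refine ⟨?_, ?_⟩
    · obtain ⟨ξ, hξ⟩ := hne
      obtain ⟨ζ, hζ⟩ := (hd hξ).1
      exact ⟨ζ, hζ.trans_le (ha.1 hξ)⟩
    · intro ζ hζ η hη
      obtain ⟨ξ, hξ, hζξ, _⟩ := ha.exists_between hζ
      exact ((hd hξ).2 ζ hζξ η hη).trans_le (ha.1 hξ)
  · intro x
    have hstep : ∀ y : W1, ∃ z, y < z ∧ ∀ ζ ≤ y, ∀ η ∈ k ζ, η < z := by
      intro y
      have hc : (insert y (⋃ ζ ∈ Iic y, k ζ)).Countable := by
        refine Countable.insert _ (Countable.biUnion ?_ fun ζ _ => hk ζ)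
        rw [← Iio_insert]
        exact (countable_Iio_W1 y).insert _
      obtain ⟨b, hb⟩ := bdd_W1 _ hc
      exact ⟨b, hb y (mem_insert _ _), fun ζ hζ η hη =>
        hb η (mem_insert_of_mem _ (mem_biUnion (mem_Iic.2 hζ) hη))⟩
    choose g hg1 hg2 using hstep
    let x' : ℕ → W1 := fun n => g^[n] x
    have hx' : ∀ n, x' (n + 1) = g (x' n) := fun n => Function.iterate_succ_apply' g n x
    have hmono : StrictMono x' := strictMono_nat_of_lt_succ fun n => by rw [hx']; exact hg1 _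
    obtain ⟨b, hb⟩ := bdd_W1 (range x') (countable_range x')
    obtain ⟨ξ, hξ, hmin⟩ := wellFounded_lt.has_min {b : W1 | ∀ n, x' n < b}
      ⟨b, fun n => hb _ (mem_range_self n)⟩
    refine ⟨ξ, ⟨⟨x' 0, hξ 0⟩, ?_⟩, (hξ 0).le⟩
    intro ζ hζ η hη
    have : ∃ n, ζ ≤ x' n := by
      by_contra! h
      exact hmin ζ (fun n => h n) hζ
    obtain ⟨n, hn⟩ := this
    exact (hg2 _ ζ hn η hη).trans_le ((hx' n).symm.le.trans (hξ (n + 1)).le)


/-! ### Coding of `ω₁` and `ω₂` by sets -/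

/-- The von Neumann ordinal of an element of `ω₁`. -/
noncomputable def i1 (x : W1) : ZFSet.{0} := (ToType.toOrd x : Ordinal.{0}).toZFSet

/-- The von Neumann ordinal of an element of `ω₂`. -/
noncomputable def i2 (x : W2) : ZFSet.{0} := (ToType.toOrd x : Ordinal.{0}).toZFSet

/-- The von Neumann ordinal `ω₂`. -/
noncomputable def w2 : ZFSet.{0} := (ω_ 2 : Ordinal.{0}).toZFSet

theorem i1_injective : Function.Injective i1 := by
  intro x y h
  exact ToType.mk.symm.injective (Subtype.ext (toZFSet_injective h))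

theorem i2_injective : Function.Injective i2 := by
  intro x y h
  exact ToType.mk.symm.injective (Subtype.ext (toZFSet_injective h))

theorem mem_w1 {z : ZFSet.{0}} : z ∈ w1 ↔ ∃ η, i1 η = z := by
  rw [w1, mem_toZFSet_iff]
  constructor
  · rintro ⟨a, ha, rfl⟩
    exact ⟨ToType.mk ⟨a, ha⟩, by simp [i1]⟩
  · rintro ⟨η, rfl⟩
    exact ⟨_, (ToType.toOrd η).2, rfl⟩

theorem mem_w2 {z : ZFSet.{0}} : z ∈ w2 ↔ ∃ η, i2 η = z := by
  rw [w2, mem_toZFSet_iff]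
  constructor
  · rintro ⟨a, ha, rfl⟩
    exact ⟨ToType.mk ⟨a, ha⟩, by simp [i2]⟩
  · rintro ⟨η, rfl⟩
    exact ⟨_, (ToType.toOrd η).2, rfl⟩

theorem i1_mem_w2 (η : W1) : i1 η ∈ w2 := by
  rw [i1, w2, toZFSet_mem_toZFSet_iff]
  refine (ToType.toOrd η).2.trans ?_
  rw [omega_lt_omega]
  norm_num

theorem i2_mem_w2 (η : W2) : i2 η ∈ w2 := mem_w2.2 ⟨η, rfl⟩

theorem card_w2 : ℵ₀ < w2.card := by
  rw [w2, card_toZFSet, card_omega]
  rw [← aleph_zero, aleph_lt_aleph]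
  norm_num

theorem card_le_aleph0_iff {x : ZFSet.{0}} : x.card ≤ ℵ₀ ↔ (x : Set ZFSet.{0}).Countable := by
  rw [← le_aleph0_iff_set_countable]
  have := ZFSet.cardinalMk_coe_sort (x := x)
  rw [show #(x : Set ZFSet.{0}) = lift.{1, 0} x.card from this]
  simp

theorem mem_ctbl {X P : ZFSet.{0}} : P ∈ ctbl X ↔ P ⊆ X ∧ (P : Set ZFSet.{0}).Countable := by
  rw [ctbl, ZFSet.mem_sep, ZFSet.mem_powerset, card_le_aleph0_iff]

theorem exists_zfset {X : ZFSet.{0}} (A : Set ZFSet.{0}) (hA : A ⊆ X) :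
    ∃ P : ZFSet.{0}, ∀ z, z ∈ P ↔ z ∈ A :=
  ⟨ZFSet.sep (· ∈ A) X, fun z => by
    rw [ZFSet.mem_sep]
    exact ⟨fun h => h.2, fun h => ⟨hA h, h⟩⟩⟩

theorem exists_ctbl {X : ZFSet.{0}} (A : Set ZFSet.{0}) (hA : A ⊆ X) (hAc : A.Countable) :
    ∃ P ∈ ctbl X, ∀ z, z ∈ P ↔ z ∈ A := by
  obtain ⟨P, hP⟩ := exists_zfset A hA
  refine ⟨P, ?_, hP⟩
  rw [mem_ctbl]
  have hPA : (P : Set ZFSet.{0}) = A := Set.ext hP
  exact ⟨fun z hz => hA ((hP z).1 hz), hPA ▸ hAc⟩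

theorem clubA {E : ZFSet.{0}} (hE : IsClubX w2 E) : ∃ (Pf : W1 → ZFSet.{0}) (bs : W2),
    (∀ ζ, Pf ζ ∈ E ∧ ∀ η ≤ ζ, i1 η ∈ Pf ζ) ∧ ∀ ζ β, i2 β ∈ Pf ζ → β < bs := by
  have h1 : ∀ ζ : W1, ∃ P ∈ E, ∀ η ≤ ζ, i1 η ∈ P := by
    intro ζ
    obtain ⟨Q, hQ, hQ'⟩ := exists_ctbl (X := w2) (i1 '' Iic ζ)
      (by rintro _ ⟨η, _, rfl⟩; exact i1_mem_w2 η)
      (by
        refine Countable.image ?_ _
        rw [← Iio_insert]
        exact (countable_Iio_W1 ζ).insert _)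
    obtain ⟨P, hP, hQP⟩ := hE.unbounded Q hQ
    exact ⟨P, hP, fun η hη => hQP ((hQ' _).2 ⟨η, hη, rfl⟩)⟩
  choose Pf hPf using h1
  have h2 : #(⋃ ζ : W1, {β : W2 | i2 β ∈ Pf ζ} : Set W2) ≤ ℵ₁ := by
    refine (mk_iUnion_le _).trans ?_
    rw [card_W1]
    refine (mul_le_mul' le_rfl (ciSup_le' (a := ℵ₀) fun ζ => ?_)).trans ?_
    · rw [le_aleph0_iff_set_countable]
      have := (mem_ctbl.1 (hE.subset (hPf ζ).1)).2
      exact this.preimage i2_injective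
    · rw [mul_aleph0_eq]
      exact aleph0_le_aleph 1
  obtain ⟨bs, hbs⟩ := bdd_W2 _ h2
  exact ⟨Pf, bs, hPf, fun ζ β h => hbs β (mem_iUnion.2 ⟨ζ, h⟩)⟩

theorem clubB {E : ZFSet.{0}} (hE : IsClubX w2 E) :
    ∃ (ν : W1) (ps : W2 → W2) (Q : W2 → ZFSet.{0}), ∀ α, α ≤ ps α ∧ i2 (ps α) ∈ Q α ∧
      Q α ∈ E ∧ ∀ η, i1 η ∈ Q α → η < ν := by
  have h1 : ∀ β : W2, ∃ P ∈ E, i2 β ∈ P := by
    intro β
    obtain ⟨Q, hQ, hQ'⟩ := exists_ctbl (X := w2) {i2 β}
      (by rintro _ rfl; exact i2_mem_w2 β) (countable_singleton _)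
    obtain ⟨P, hP, hQP⟩ := hE.unbounded Q hQ
    exact ⟨P, hP, hQP ((hQ' _).2 rfl)⟩
  choose P hPE hP using h1
  have h2 : ∀ β : W2, ∃ ν : W1, ∀ η, i1 η ∈ P β → η < ν := by
    intro β
    have hc : {η : W1 | i1 η ∈ P β}.Countable :=
      (mem_ctbl.1 (hE.subset (hPE β))).2.preimage i1_injective
    obtain ⟨b, hb⟩ := bdd_W1 _ hc
    exact ⟨b, fun η hη => hb η hη⟩
  choose ν hν using h2
  obtain ⟨ν', hν'⟩ : ∃ ν' : W1, ∀ α : W2, ∃ β, α ≤ β ∧ ν β ≤ ν' := by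
    by_contra! h
    choose g hg using h
    obtain ⟨b, hb⟩ := bdd_W2 (range g) (by
      refine mk_range_le.trans ?_
      rw [card_W1])
    exact absurd (hg (ν b) b (hb _ (mem_range_self _)).le) (by simp)
  choose ps hps1 hps2 using hν'
  exact ⟨ν', ps, fun α => P (ps α), fun α => ⟨hps1 α, hP _, hPE _, fun η hη =>
    (hν _ η hη).trans_le (hps2 α)⟩⟩


/-! ### Order types of initial segments of subsets of `ω₂` -/

/-- The order type of `{α ∈ B : α < β}`. -/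
noncomputable def rk (B : Set W2) (β : W2) : Ordinal.{0} := typeLT {α : W2 | α < β ∧ α ∈ B}

theorem rk_eq {B : Set W2} {β : W2} (hβ : β ∈ B) :
    rk B β = typein (α := B) (· < ·) ⟨β, hβ⟩ := by
  have h : typein (α := B) (· < ·) ⟨β, hβ⟩ =
      type (Subrel ((· < ·) : B → B → Prop) (fun x => x < ⟨β, hβ⟩)) := rfl
  rw [rk, h]
  exact type_eq.2 ⟨⟨⟨fun x => ⟨⟨x.1, x.2.2⟩, x.2.1⟩, fun x => ⟨x.1.1, x.2, x.1.2⟩, fun x => rfl,
    fun x => rfl⟩, Iff.rfl⟩⟩

theorem rk_lt {B : Set W2} {β β' : W2} (hβ : β ∈ B) (hβ' : β' ∈ B) (h : β < β') :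
    rk B β < rk B β' := by
  rw [rk_eq hβ, rk_eq hβ', typein_lt_typein]
  exact h

theorem rk_le {B : Set W2} {β β' : W2} (hβ : β ∈ B) (hβ' : β' ∈ B) (h : β ≤ β') :
    rk B β ≤ rk B β' := by
  rcases h.eq_or_lt with rfl | h
  · exact le_rfl
  · exact (rk_lt hβ hβ' h).le

theorem rk_lt_type {B : Set W2} {β : W2} (hβ : β ∈ B) : rk B β < typeLT B := by
  rw [rk_eq hβ]
  exact typein_lt_type _ _

theorem exists_rk {B : Set W2} {o : Ordinal.{0}} (ho : o < typeLT B) : ∃ β ∈ B, rk B β = o := by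
  obtain ⟨⟨β, hβ⟩, h⟩ := typein_surj (α := B) (· < ·) ho
  exact ⟨β, hβ, by rw [rk_eq hβ, h]⟩

/-! ### Facts about `H(θ)` -/

theorem H_trans {θ : Cardinal.{0}} {x z : ZFSet.{0}} (hx : x ∈ H θ) (hz : z ∈ x) : z ∈ H θ := by
  obtain ⟨t, ht, hxt, htc⟩ := hx
  exact ⟨t, ht, ht z (hxt hz), htc⟩

theorem w2_mem_H {θ : Cardinal.{0}} (h : ctbl w2 ∈ H θ) : w2 ∈ H θ := by
  obtain ⟨t, ht, hxt, htc⟩ := h
  refine ⟨t, ht, ?_, htc⟩
  intro z hz
  obtain ⟨Q, hQ, hQ'⟩ := exists_ctbl (X := w2) {z} (by rintro _ rfl; exact hz)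
    (countable_singleton _)
  exact ht Q (hxt hQ) ((hQ' z).2 rfl)

/-! ### Enumerations -/

theorem exists_enum_W1 (δ : W1) (h : (Iio δ).Nonempty) : ∃ a : ℕ → W1, range a = Iio δ := by
  obtain ⟨a, ha⟩ := (countable_Iio_W1 δ).exists_eq_range h
  exact ⟨a, ha.symm⟩

theorem countable_Iio_ord {o : Ordinal.{0}} (ho : o < ω₁) : (Iio o).Countable := by
  rw [← le_aleph0_iff_set_countable, Cardinal.mk_Iio_ordinal, lift_le_aleph0]
  rwa [← Order.lt_succ_iff, succ_aleph0, ← lt_ord, ord_aleph]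

theorem exists_enum_ord {o : Ordinal.{0}} (ho : o < ω₁) (h : 0 < o) :
    ∃ b : ℕ → Ordinal.{0}, range b = Iio o := by
  obtain ⟨a, ha⟩ := (countable_Iio_ord ho).exists_eq_range ⟨0, h⟩
  exact ⟨a, ha.symm⟩

theorem exists_inj (β : W2) : ∃ j : W2 → W1, InjOn j (Iio β) := by
  have h : #(Iio β) ≤ #W1 := by
    rw [card_W1]
    exact card_Iio_W2 β
  obtain ⟨g⟩ := h
  classical
  refine ⟨fun α => if h : α < β then g ⟨α, h⟩ else Classical.arbitrary W1, ?_⟩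
  intro x hx y hy hxy
  dsimp only at hxy
  rw [dif_pos (mem_Iio.1 hx), dif_pos (mem_Iio.1 hy)] at hxy
  exact congrArg Subtype.val (g.injective hxy)

/-! ### The open set mappings -/

/-- The least element of a set of elements of `ω₁`. -/
noncomputable def dlS (A : Set W1) : W1 :=
  open Classical in
  if h : A.Nonempty then (wellFounded_lt (α := W1)).min A h else Classical.arbitrary W1

/-- The least element of `ω₁` which is not in `M`. -/
noncomputable def dl (M : Set ZFSet.{0}) : W1 := dlS {ζ | i1 ζ ∉ M}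

theorem dl_eq {M : Set ZFSet.{0}} {ξ : W1} (h : ∀ η, i1 η ∈ M ↔ η < ξ) : dl M = ξ := by
  have h0 : {ζ : W1 | i1 ζ ∉ M} = Ici ξ := by
    ext ζ
    rw [mem_ofPred_eq, h, mem_Ici, not_lt]
  have hex : (Ici ξ).Nonempty := ⟨ξ, mem_Ici.2 le_rfl⟩
  rw [dl, h0, dlS, dif_pos hex]
  exact le_antisymm (not_lt.1 ((wellFounded_lt (α := W1)).not_lt_min _ (mem_Ici.2 le_rfl)))
    ((wellFounded_lt (α := W1)).min_mem _ hex)

theorem dl_congr {M M' : Set ZFSet.{0}} (h : M' ∩ w1 = M ∩ w1) : dl M' = dl M := by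
  have h1 : ∀ ζ : W1, i1 ζ ∈ M' ↔ i1 ζ ∈ M := by
    intro ζ
    have hz : i1 ζ ∈ (w1 : Set ZFSet.{0}) := mem_w1.2 ⟨ζ, rfl⟩
    constructor
    · intro hm
      have : i1 ζ ∈ M' ∩ w1 := ⟨hm, hz⟩
      rw [h] at this
      exact this.1
    · intro hm
      have : i1 ζ ∈ M ∩ w1 := ⟨hm, hz⟩
      rw [← h] at this
      exact this.1
  have h2 : {ζ : W1 | i1 ζ ∉ M'} = {ζ : W1 | i1 ζ ∉ M} := by
    ext ζ
    exact not_congr (h1 ζ)
  rw [dl, dl, h2]

/-- The open set mapping built from enumerations `a` of the `δ < ω₁` and `b` of a countable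
ordinal attached to `δ`, and from `h`. -/
def mp (a : W1 → ℕ → W1) (b : W1 → ℕ → Ordinal.{0}) (h : W2 → W1 → Ordinal.{0})
    (M : Set ZFSet.{0}) : Set ZFSet.{0} :=
  {P | P ∈ ctbl w2 ∧ ∃ β : W2, i2 β ∈ P ∧ ∃ n : ℕ, (∀ η : W1, i1 η ∈ P → η < a (dl M) n) ∧
    ∀ m ≤ n, b (dl M) m ≤ h β (dl M)}

theorem mp_open (a : W1 → ℕ → W1) (b : W1 → ℕ → Ordinal.{0}) (h : W2 → W1 → Ordinal.{0})
    (M : Set ZFSet.{0}) : IsOpenX w2 (mp a b h M) := by
  rintro P ⟨hP, β, hβ, n, hn, hm⟩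
  refine ⟨{i2 β}, P, ?_, hP, ?_, fun _ h => h, ?_⟩
  · rw [ZFSet.card_singleton]
    exact one_lt_aleph0
  · intro z hz
    rw [ZFSet.mem_singleton] at hz
    rwa [hz]
  · intro Q hQ h1 h2
    exact ⟨hQ, β, h1 (ZFSet.mem_singleton.2 rfl), n, fun η hη => hn η (h2 hη), hm⟩

theorem mp_endExt (a : W1 → ℕ → W1) (b : W1 → ℕ → Ordinal.{0}) (h : W2 → W1 → Ordinal.{0})
    (M : Set ZFSet.{0}) (P : ZFSet.{0}) (hP : P ∈ mp a b h M) (P' : ZFSet.{0})
    (hP' : P' ∈ ctbl w2) (hE : EndExt (P : Set ZFSet.{0}) P') : P' ∈ mp a b h M := by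
  obtain ⟨_, β, hβ, n, hn, hm⟩ := hP
  refine ⟨hP', β, hE.1 hβ, n, fun η hη => hn η ?_, hm⟩
  have : i1 η ∈ (P' : Set ZFSet.{0}) ∩ w1 := ⟨hη, mem_w1.2 ⟨η, rfl⟩⟩
  rw [hE.2] at this
  exact this.1

theorem mp_isOpenMapping {θ : Cardinal.{0}} (hθ : ℵ₀ ≤ θ) (hH : ctbl w2 ∈ H θ)
    (a : W1 → ℕ → W1) (b : W1 → ℕ → Ordinal.{0}) (h : W2 → W1 → Ordinal.{0}) :
    IsOpenMapping w2 θ {M | IsCtblElem θ M ∧ w2 ∈ M} (mp a b h) where
  club := club_elem hθ (w2_mem_H hH)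
  mem := fun _ h => h.2
  subset := fun _ _ _ hP => hP.1
  isOpen := fun M _ => mp_open a b h M


/-! ### The contradiction at one model -/

theorem exists_bound_fin (ξ : W1) (a : ℕ → W1) (ha : ∀ n, a n < ξ) (m : ℕ) :
    ∃ ζ < ξ, ∀ i ≤ m, a i ≤ ζ := by
  induction m with
  | zero => exact ⟨a 0, ha 0, fun i hi => by rw [Nat.le_zero.1 hi]⟩
  | succ m ih =>
    obtain ⟨ζ, hζ, h⟩ := ih
    refine ⟨max ζ (a (m + 1)), max_lt hζ (ha _), fun i hi => ?_⟩
    rcases Nat.le_succ_iff.1 hi with hi | rfl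
    · exact (h i hi).trans (le_max_left _ _)
    · exact le_max_right _ _

theorem exists_bound_rk {B : Set W2} (c : ℕ → Ordinal.{0}) (n : ℕ)
    (hc : ∀ m ≤ n, c m < typeLT B) : ∃ α ∈ B, ∀ m ≤ n, c m ≤ rk B α := by
  induction n with
  | zero =>
    obtain ⟨α, hα, h⟩ := exists_rk (hc 0 le_rfl)
    exact ⟨α, hα, fun m hm => by rw [Nat.le_zero.1 hm, h]⟩
  | succ n ih =>
    obtain ⟨α, hα, h⟩ := ih fun m hm => hc m (hm.trans (Nat.le_succ n))
    obtain ⟨α', hα', h'⟩ := exists_rk (hc (n + 1) le_rfl)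
    rcases le_total α α' with hle | hle
    · refine ⟨α', hα', fun m hm => ?_⟩
      rcases Nat.le_succ_iff.1 hm with hm | rfl
      · exact (h m hm).trans (rk_le hα hα' hle)
      · exact h'.symm.le
    · refine ⟨α, hα, fun m hm => ?_⟩
      rcases Nat.le_succ_iff.1 hm with hm | rfl
      · exact h m hm
      · exact h'.symm.le.trans (rk_le hα' hα hle)

/-- Both alternatives of the 0-1 law fail at a model `M` whose intersection with `ω₂` has the
order type enumerated by `b (dl M)`. -/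
theorem no_model (a : W1 → ℕ → W1) (b : W1 → ℕ → Ordinal.{0}) (h : W2 → W1 → Ordinal.{0})
    (M : Set ZFSet.{0}) (ξ : W1) (B : Set W2) (hM1 : ∀ η, i1 η ∈ M ↔ η < ξ)
    (hM2 : ∀ β, i2 β ∈ M ↔ β ∈ B)
    (ha : range (a ξ) = Iio ξ) (hb : range (b ξ) = Iio (typeLT B))
    (hh : ∀ β ∈ B, h β ξ = rk B β) (hsucc : ∀ β ∈ B, ∃ β' ∈ B, β < β')
    (hsub : ∀ P ∈ M, P ∈ ctbl w2 → ∀ z ∈ P, z ∈ M)
    (E : ZFSet.{0}) (hE : IsClubX w2 E)
    (Pf : W1 → ZFSet.{0}) (bs : W2) (hbsM : i2 bs ∈ M) (hPfM : ∀ ζ < ξ, Pf ζ ∈ M)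
    (hPf : ∀ ζ, Pf ζ ∈ E ∧ ∀ η ≤ ζ, i1 η ∈ Pf ζ) (hbs : ∀ ζ β, i2 β ∈ Pf ζ → β < bs)
    (ν : W1) (ps : W2 → W2) (Q : W2 → ZFSet.{0}) (hνM : i1 ν ∈ M) (hpsM : ∀ α ∈ B, ps α ∈ B)
    (hQM : ∀ α ∈ B, Q α ∈ M)
    (hQ : ∀ α, α ≤ ps α ∧ i2 (ps α) ∈ Q α ∧ Q α ∈ E ∧ ∀ η, i1 η ∈ Q α → η < ν)
    (h01 : (∀ P ∈ E, P ∈ M → P ∈ mp a b h M) ∨ (∀ P ∈ E, P ∈ M → P ∉ mp a b h M)) :
    False := by
  have hdl : dl M = ξ := dl_eq hM1
  have haξ : ∀ n, a ξ n < ξ := fun n => by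
    have : a ξ n ∈ Iio ξ := ha ▸ mem_range_self n
    exact this
  rcases h01 with h01 | h01
  · obtain ⟨β', hβ', hlt⟩ := hsucc bs ((hM2 bs).1 hbsM)
    have h1 : rk B β' ∈ range (b ξ) := by
      rw [hb]
      exact rk_lt_type hβ'
    obtain ⟨m, hm⟩ := h1
    obtain ⟨ζ, hζ, hζa⟩ := exists_bound_fin ξ (a ξ) haξ m
    have h2 := h01 (Pf ζ) (hPf ζ).1 (hPfM ζ hζ)
    obtain ⟨_, β, hβ, n, hn, hn'⟩ := h2
    rw [hdl] at hn hn'
    have h3 : ζ < a ξ n := hn ζ ((hPf ζ).2 ζ le_rfl)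
    have h4 : m ≤ n := by
      by_contra! hlt'
      exact absurd (hζa n hlt'.le) (not_le.2 h3)
    have h5 := hn' m h4
    have hβB : β ∈ B := (hM2 β).1 (hsub _ (hPfM ζ hζ) (hE.subset (hPf ζ).1) _ hβ)
    rw [hm, hh β hβB] at h5
    have h6 : β < β' := (hbs ζ β hβ).trans hlt
    exact absurd (rk_lt hβB hβ' h6) (not_lt.2 h5)
  · obtain ⟨n, hn⟩ : ν ∈ range (a ξ) := by
      rw [ha]
      exact (hM1 ν).1 hνM
    obtain ⟨α, hα, hαm⟩ := exists_bound_rk (b ξ) n (fun m _ => by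
      have : b ξ m ∈ Iio (typeLT B) := hb ▸ mem_range_self m
      exact this)
    refine h01 (Q α) (hQ α).2.2.1 (hQM α hα) ⟨hE.subset (hQ α).2.2.1, ps α, (hQ α).2.1, n, ?_, ?_⟩
    · rw [hdl, hn]
      exact (hQ α).2.2.2
    · rw [hdl]
      intro m hm
      rw [hh _ (hpsM α hα)]
      exact (hαm m hm).trans (rk_le hα (hpsM α hα) (hQ α).1)


/-! ### The construction -/

theorem typeLT_congr {α β : Type} [LinearOrder α] [WellFoundedLT α] [LinearOrder β]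
    [WellFoundedLT β] (e : α ≃o β) : typeLT α = typeLT β :=
  type_eq.2 ⟨e.toRelIsoLT⟩

theorem i1_mem_H {θ : Cardinal.{0}} (h : ctbl w2 ∈ H θ) (ζ : W1) : i1 ζ ∈ H θ :=
  H_trans (w2_mem_H h) (i1_mem_w2 ζ)

theorem i2_mem_H {θ : Cardinal.{0}} (h : ctbl w2 ∈ H θ) (ζ : W2) : i2 ζ ∈ H θ :=
  H_trans (w2_mem_H h) (i2_mem_w2 ζ)

theorem main {θ : Cardinal.{0}} (hθ : θ.IsRegular) (hH : ctbl w2 ∈ H θ)
    (h01 : ZeroOneLawAt w2 θ) : BoundedByCanonical := by
  intro f hf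
  by_contra hno
  push Not at hno
  -- enumerations
  have hθ' : ℵ₀ ≤ θ := hθ.aleph0_le
  obtain ⟨a, ha⟩ : ∃ a : W1 → ℕ → W1, ∀ δ, (Iio δ).Nonempty → range (a δ) = Iio δ := by
    have : ∀ δ : W1, ∃ a : ℕ → W1, (Iio δ).Nonempty → range a = Iio δ := by
      intro δ
      by_cases h : (Iio δ).Nonempty
      · obtain ⟨a, ha⟩ := exists_enum_W1 δ h
        exact ⟨a, fun _ => ha⟩
      · exact ⟨fun _ => δ, fun h' => absurd h' h⟩
    choose a ha using this
    exact ⟨a, ha⟩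
  obtain ⟨b, hb⟩ : ∃ b : Ordinal.{0} → ℕ → Ordinal.{0}, ∀ o, o < ω₁ → 0 < o →
      range (b o) = Iio o := by
    have : ∀ o : Ordinal.{0}, ∃ b : ℕ → Ordinal.{0}, o < ω₁ → 0 < o → range b = Iio o := by
      intro o
      by_cases h : o < ω₁ ∧ 0 < o
      · obtain ⟨b, hb⟩ := exists_enum_ord h.1 h.2
        exact ⟨b, fun _ _ => hb⟩
      · exact ⟨fun _ => 0, fun h1 h2 => absurd ⟨h1, h2⟩ h⟩
    choose b hb using this
    exact ⟨b, hb⟩
  obtain ⟨c, hc⟩ : ∃ c : W1 → ℕ → Ordinal.{0}, ∀ δ, range (c δ) = Iio (f δ + 1) := by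
    have : ∀ δ : W1, ∃ c : ℕ → Ordinal.{0}, range c = Iio (f δ + 1) := fun δ =>
      exists_enum_ord ((isSuccLimit_omega 1).add_one_lt (hf δ)) (by simp)
    choose c hc using this
    exact ⟨c, hc⟩
  choose j hj using exists_inj
  let h : W2 → W1 → Ordinal.{0} := fun β δ => typeLT {α : W2 | α < β ∧ j β α < δ}
  -- the clubs given by the 0-1 law
  have hlaw := fun i : ℕ => h01 _ (mp a (fun δ => b (c δ i)) h)
    (mp_isOpenMapping hθ' hH a (fun δ => b (c δ i)) h)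
    (fun M _ P hP P' hP' hE => mp_endExt a _ h M P hP P' hP' hE)
    (fun M _ M' _ hE => by
      have := dl_congr hE.2
      simp only [mp, this])
  choose D' hD'sub hD'club hD' using hlaw
  choose F hFc hFH hF using fun i => kueker (hD'club i)
  -- functions on clubs of `[ω₂]^ω`
  have hA : ∀ E : ZFSet.{0}, ∃ (Pf : W1 → ZFSet.{0}) (bs : W2), IsClubX w2 E →
      (∀ ζ, Pf ζ ∈ E ∧ ∀ η ≤ ζ, i1 η ∈ Pf ζ) ∧ ∀ ζ β, i2 β ∈ Pf ζ → β < bs := by
    intro E
    by_cases hE : IsClubX w2 E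
    · obtain ⟨Pf, bs, h⟩ := clubA hE
      exact ⟨Pf, bs, fun _ => h⟩
    · exact ⟨fun _ => ∅, Classical.arbitrary _, fun h => absurd h hE⟩
  choose Pf bs hPf using hA
  have hB : ∀ E : ZFSet.{0}, ∃ (ν : W1) (ps : W2 → W2) (Q : W2 → ZFSet.{0}), IsClubX w2 E →
      ∀ α, α ≤ ps α ∧ i2 (ps α) ∈ Q α ∧ Q α ∈ E ∧ ∀ η, i1 η ∈ Q α → η < ν := by
    intro E
    by_cases hE : IsClubX w2 E
    · obtain ⟨ν, ps, Q, h⟩ := clubB hE
      exact ⟨ν, ps, Q, fun _ => h⟩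
    · exact ⟨Classical.arbitrary _, fun _ => Classical.arbitrary _, fun _ => ∅,
        fun h => absurd h hE⟩
  choose ν ps Q hQ using hB
  have hsc : ∀ β : W2, ∃ β', β < β' := by
    intro β
    obtain ⟨b, hb⟩ := bdd_W2 {β} (by
      rw [mk_singleton]
      exact one_le_aleph0.trans (aleph0_le_aleph 1))
    exact ⟨b, hb β rfl⟩
  choose sc hsc using hsc
  -- the closure operation
  let K : ZFSet.{0} → ZFSet.{0} → Set ZFSet.{0} := fun x y => H θ ∩
    ({z | (x : Set ZFSet.{0}).Countable ∧ z ∈ x} ∪ {i2 (bs x), i1 (ν x)} ∪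
      {z | ∃ ζ, y = i1 ζ ∧ z = Pf x ζ} ∪ {z | ∃ α, y = i2 α ∧ z = i2 (ps x α)} ∪
      {z | ∃ α, y = i2 α ∧ z = Q x α} ∪ {z | ∃ β, x = i2 β ∧ z = i2 (sc β)} ∪
      {z | ∃ β α, x = i2 β ∧ y = i2 α ∧ z = i1 (j β α)} ∪
      {z | ∃ β ζ α, x = i2 β ∧ y = i1 ζ ∧ α < β ∧ j β α = ζ ∧ z = i2 α})
  have hKc : ∀ x y, (K x y).Countable := by
    intro x y
    refine Countable.mono inter_subset_right ?_
    refine Countable.union (Countable.union (Countable.union (Countable.union (Countable.union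
      (Countable.union (Countable.union ?_ ?_) ?_) ?_) ?_) ?_) ?_) ?_
    · by_cases hx : (x : Set ZFSet.{0}).Countable
      · exact hx.mono fun z hz => hz.2
      · exact countable_empty.mono fun z hz => absurd hz.1 hx
    · exact (countable_singleton _).insert _
    · refine Subsingleton.countable ?_
      rintro z ⟨ζ, hζ, rfl⟩ z' ⟨ζ', hζ', rfl⟩
      rw [i1_injective (hζ.symm.trans hζ')]
    · refine Subsingleton.countable ?_
      rintro z ⟨ζ, hζ, rfl⟩ z' ⟨ζ', hζ', rfl⟩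
      rw [i2_injective (hζ.symm.trans hζ')]
    · refine Subsingleton.countable ?_
      rintro z ⟨ζ, hζ, rfl⟩ z' ⟨ζ', hζ', rfl⟩
      rw [i2_injective (hζ.symm.trans hζ')]
    · refine Subsingleton.countable ?_
      rintro z ⟨ζ, hζ, rfl⟩ z' ⟨ζ', hζ', rfl⟩
      rw [i2_injective (hζ.symm.trans hζ')]
    · refine Subsingleton.countable ?_
      rintro z ⟨β, α, hβ, hα, rfl⟩ z' ⟨β', α', hβ', hα', rfl⟩
      rw [i2_injective (hβ.symm.trans hβ'), i2_injective (hα.symm.trans hα')]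
    · refine Subsingleton.countable ?_
      rintro z ⟨β, ζ, α, hβ, hζ, hlt, hjz, rfl⟩ z' ⟨β', ζ', α', hβ', hζ', hlt', hjz', rfl⟩
      obtain rfl := i2_injective (hβ.symm.trans hβ')
      obtain rfl := i1_injective (hζ.symm.trans hζ')
      rw [hj β hlt hlt' (hjz.trans hjz'.symm)]
  let G : Finset ZFSet.{0} → Set ZFSet.{0} := fun s => (⋃ i, F i s) ∪ ⋃ x ∈ s, ⋃ y ∈ s, K x y
  have hGc : ∀ s, (G s).Countable := fun s =>
    (countable_iUnion fun i => hFc i s).union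
      (s.countable_toSet.biUnion fun x _ => s.countable_toSet.biUnion fun y _ => hKc x y)
  have hGH : ∀ s : Finset ZFSet.{0}, (s : Set ZFSet.{0}) ⊆ H θ → G s ⊆ H θ := fun s hs =>
    union_subset (iUnion_subset fun i => hFH i s hs)
      (iUnion₂_subset fun x _ => iUnion₂_subset fun y _ => inter_subset_left)
  -- properties of closed sets
  have hclosedK : ∀ N : Set ZFSet.{0}, (∀ s : Finset ZFSet.{0}, (s : Set ZFSet.{0}) ⊆ N → G s ⊆ N) →
      ∀ x ∈ N, ∀ y ∈ N, K x y ⊆ N := by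
    intro N hN x hx y hy
    classical
    refine Subset.trans ?_ (hN {x, y} ?_)
    · refine subset_union_of_subset_right ?_ _
      intro z hz
      exact mem_iUnion₂.2 ⟨x, by simp, mem_iUnion₂.2 ⟨y, by simp, hz⟩⟩
    · intro z hz
      simp only [Finset.coe_insert, Finset.coe_singleton, mem_insert_iff,
        mem_singleton_iff] at hz
      rcases hz with rfl | rfl
      · exact hx
      · exact hy
  -- the models
  let N : W1 → Set ZFSet.{0} := fun ξ => clo G (i1 '' Iio ξ)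
  let N' : W1 → Set ZFSet.{0} := fun ξ => clo G (i1 '' Iic ξ)
  have hN'c : ∀ ξ, (N' ξ).Countable := fun ξ => clo_countable G hGc (by
    refine Countable.image ?_ _
    rw [← Iio_insert]
    exact (countable_Iio_W1 ξ).insert _)
  have hNc : ∀ ξ, (N ξ).Countable := fun ξ => clo_countable G hGc
    ((countable_Iio_W1 ξ).image _)
  have hNN' : ∀ ζ ξ, ζ < ξ → N' ζ ⊆ N ξ := fun ζ ξ hlt =>
    clo_mono G (image_mono fun _ hx => lt_of_le_of_lt (mem_Iic.1 hx) hlt)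
  have hNH : ∀ ξ, N ξ ⊆ H θ := fun ξ => clo_min
    (by rintro _ ⟨ζ, _, rfl⟩; exact i1_mem_H hH ζ) hGH
  have hfin : ∀ ξ, (∃ ζ, ζ < ξ) → ∀ x ∈ N ξ, ∃ ζ < ξ, x ∈ N' ζ := by
    intro ξ hξ x hx
    obtain ⟨s, hs, hxs⟩ := clo_finitary G hx
    have : ∃ ζ < ξ, (s : Set ZFSet.{0}) ⊆ i1 '' Iic ζ := by
      clear hxs
      classical
      induction s using Finset.induction_on with
      | empty =>
        obtain ⟨ζ, hζ⟩ := hξ
        exact ⟨ζ, hζ, by simp⟩
      | insert y s _ ih =>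
        rw [Finset.coe_insert, insert_subset_iff] at hs
        obtain ⟨ζ, hζ, hsζ⟩ := ih hs.2
        obtain ⟨ζ', hζ', rfl⟩ := hs.1
        refine ⟨max ζ ζ', max_lt hζ hζ', ?_⟩
        rw [Finset.coe_insert, insert_subset_iff]
        exact ⟨⟨ζ', mem_Iic.2 (le_max_right _ _), rfl⟩, hsζ.trans
          (image_mono fun _ hx => mem_Iic.2 (le_trans (mem_Iic.1 hx) (le_max_left _ _)))⟩
    obtain ⟨ζ, hζ, hsub⟩ := this
    exact ⟨ζ, hζ, clo_mono G hsub hxs⟩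
  -- the union of the models meets `ω₂` in a set of size at most `ℵ₁`
  let Y : Set W2 := {β | ∃ ζ, i2 β ∈ N' ζ}
  have hYc : #Y ≤ ℵ₁ := by
    have : Y = ⋃ ζ : W1, {β | i2 β ∈ N' ζ} := by
      ext β
      simp [Y]
    rw [this]
    refine (mk_iUnion_le _).trans ?_
    rw [card_W1]
    refine (mul_le_mul' le_rfl (ciSup_le' (a := ℵ₀) fun ζ => ?_)).trans ?_
    · rw [le_aleph0_iff_set_countable]
      exact (hN'c ζ).preimage i2_injective
    · rw [mul_aleph0_eq]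
      exact aleph0_le_aleph 1
  have hYne : Nonempty Y := by
    obtain ⟨β, hβ⟩ := mem_w2.1 (i1_mem_w2 (Classical.arbitrary W1))
    refine ⟨⟨β, Classical.arbitrary W1, ?_⟩⟩
    rw [hβ]
    exact subset_clo G _ ⟨_, mem_Iic.2 le_rfl, rfl⟩
  obtain ⟨e0, he0⟩ : ∃ e0 : W1 → Y, Function.Surjective e0 := by
    have : #Y ≤ #W1 := by rwa [card_W1]
    obtain ⟨g⟩ := this
    exact ⟨Function.invFun g, Function.invFun_surjective g.injective⟩
  have hη : typeLT Y < ω_ 2 := by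
    refine (lt_ord.2 ?_).trans_le (ord_aleph 2).le
    rw [card_type]
    refine hYc.trans_lt ?_
    rw [aleph_lt_aleph]
    norm_num
  let iso : Y ≃o (typeLT Y).ToType :=
    OrderIso.ofRelIsoLT (Classical.choice (type_eq.1 (type_toType (typeLT Y)).symm))
  have hrho : ∀ ζ : W1, ∃ ρ : W1, i2 (e0 ζ).1 ∈ N' ρ := fun ζ => (e0 ζ).2
  choose ρ hρ using hrho
  have hp : ∀ β : W2, ∃ p : W1, β ∈ Y → (e0 p).1 = β := by
    intro β
    by_cases hβ : β ∈ Y
    · obtain ⟨p, hp⟩ := he0 ⟨β, hβ⟩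
      exact ⟨p, fun _ => by rw [hp]⟩
    · exact ⟨Classical.arbitrary _, fun h => absurd h hβ⟩
  choose p hp using hp
  -- the club
  let k : W1 → Set W1 := fun ζ => i1 ⁻¹' (N' ζ) ∪ {ρ ζ} ∪ p '' (i2 ⁻¹' (N' ζ))
  have hk : ∀ ζ, (k ζ).Countable := fun ζ =>
    (((hN'c ζ).preimage i1_injective).union (countable_singleton _)).union
      (((hN'c ζ).preimage i2_injective).image _)
  obtain ⟨ξ, ⟨hξ0, hξ⟩, hfξ⟩ := hno (typeLT Y) hη (fun ζ => iso (e0 ζ))
    (iso.surjective.comp he0) _ (closure_points_club k hk)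
  -- the intersections of the model with `ω₁` and `ω₂`
  let M : Set ZFSet.{0} := N ξ
  let B : Set W2 := {β | i2 β ∈ M}
  have hM1 : ∀ η, i1 η ∈ M ↔ η < ξ := by
    intro η
    constructor
    · intro hη
      obtain ⟨ζ, hζ, hηζ⟩ := hfin ξ hξ0 _ hη
      exact hξ ζ hζ η (Or.inl (Or.inl hηζ))
    · intro hη
      exact subset_clo G _ ⟨η, hη, rfl⟩
  have hMB : B = (fun ζ => (e0 ζ).1) '' Iio ξ := by
    ext β
    constructor
    · intro hβ
      obtain ⟨ζ, hζ, hβζ⟩ := hfin ξ hξ0 _ hβ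
      exact ⟨p β, hξ ζ hζ _ (Or.inr ⟨β, hβζ, rfl⟩), hp β ⟨ζ, hβζ⟩⟩
    · rintro ⟨ζ, hζ, rfl⟩
      exact hNN' (ρ ζ) ξ (hξ ζ hζ _ (Or.inl (Or.inr rfl))) (hρ ζ)
  have hotp : typeLT ((fun ζ => iso (e0 ζ)) '' Iio ξ) = typeLT B := by
    have hBY : ∀ β ∈ B, β ∈ Y := by
      intro β hβ
      rw [hMB] at hβ
      obtain ⟨ζ, _, rfl⟩ := hβ
      exact (e0 ζ).2
    symm
    refine typeLT_congr (StrictMono.orderIsoOfSurjective
      (fun x : B => (⟨iso ⟨x.1, hBY x.1 x.2⟩, ?_⟩ : ((fun ζ => iso (e0 ζ)) '' Iio ξ : Set _)))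
      ?_ ?_)
    · obtain ⟨x, hx⟩ := x
      have hx' := hx
      rw [hMB] at hx'
      obtain ⟨ζ, hζ, rfl⟩ := hx'
      exact ⟨ζ, hζ, rfl⟩
    · intro x y hxy
      exact iso.strictMono hxy
    · rintro ⟨_, ζ, hζ, rfl⟩
      refine ⟨⟨(e0 ζ).1, ?_⟩, rfl⟩
      rw [hMB]
      exact ⟨ζ, hζ, rfl⟩
  rw [hotp] at hfξ
  -- apply the 0-1 law at the model
  have hMG : ∀ s : Finset ZFSet.{0}, (s : Set ZFSet.{0}) ⊆ M → G s ⊆ M :=
    fun s hs => clo_closed G _ s hs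
  have hMK := hclosedK M hMG
  have hBne : B.Nonempty := by
    obtain ⟨ζ, hζ⟩ := hξ0
    rw [hMB]
    exact ⟨_, ζ, hζ, rfl⟩
  have ho0 : 0 < typeLT B := by
    rw [pos_iff_ne_zero, type_ne_zero_iff_nonempty]
    exact hBne.to_subtype
  have ho1 : typeLT B < ω₁ := hfξ.trans_lt (hf ξ)
  obtain ⟨i, hi⟩ : typeLT B ∈ range (c ξ) := by
    rw [hc, mem_Iio, Order.lt_add_one_iff]
    exact hfξ
  have hMD : M ∈ D' i := hF i M (hNc ξ) (hNH ξ) fun s hs =>
    (subset_iUnion (fun i => F i s) i).trans ((subset_union_left).trans (hMG s hs))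
  obtain ⟨E, hEM, hE, halt⟩ := hD' i M hMD
  have hKmem : ∀ x ∈ M, ∀ y ∈ M, ∀ z ∈ K x y, z ∈ M := fun x hx y hy z hz => hMK x hx y hy hz
  obtain ⟨hPf1, hPf2⟩ := hPf E hE
  have hQE := hQ E hE
  refine no_model a (fun δ => b (c δ i)) h M ξ B hM1 (fun β => Iff.rfl) ?_ ?_ ?_ ?_ ?_ E hE
    (Pf E) (bs E) ?_ ?_ hPf1 hPf2 (ν E) (ps E) (Q E) ?_ ?_ ?_ hQE halt
  · exact ha ξ hξ0
  · show range (b (c ξ i)) = _
    rw [hi]
    exact hb _ ho1 ho0
  · intro β hβ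
    have : {α : W2 | α < β ∧ j β α < ξ} = {α : W2 | α < β ∧ α ∈ B} := by
      ext α
      constructor
      · rintro ⟨h1, h2⟩
        refine ⟨h1, hKmem (i2 β) hβ (i1 (j β α)) ((hM1 _).2 h2) _ ⟨i2_mem_H hH α, ?_⟩⟩
        exact Or.inr ⟨β, j β α, α, rfl, rfl, h1, rfl, rfl⟩
      · rintro ⟨h1, h2⟩
        refine ⟨h1, (hM1 _).1 (hKmem (i2 β) hβ (i2 α) h2 _ ⟨i1_mem_H hH _, ?_⟩)⟩
        exact Or.inl (Or.inr ⟨β, α, rfl, rfl, rfl⟩)
    show typeLT {α : W2 | α < β ∧ j β α < ξ} = _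
    rw [rk, this]
  · intro β hβ
    refine ⟨sc β, hKmem (i2 β) hβ (i2 β) hβ _ ⟨i2_mem_H hH _, ?_⟩, hsc β⟩
    exact Or.inl (Or.inl (Or.inr ⟨β, rfl, rfl⟩))
  · intro P hP hPc z hz
    refine hKmem P hP P hP z ⟨H_trans (hNH ξ hP) hz, ?_⟩
    exact Or.inl (Or.inl (Or.inl (Or.inl (Or.inl (Or.inl (Or.inl ⟨(mem_ctbl.1 hPc).2, hz⟩))))))
  · refine hKmem E hEM E hEM _ ⟨i2_mem_H hH _, ?_⟩
    exact Or.inl (Or.inl (Or.inl (Or.inl (Or.inl (Or.inl (Or.inr (Or.inl rfl)))))))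
  · intro ζ hζ
    refine hKmem E hEM (i1 ζ) ((hM1 ζ).2 hζ) _ ⟨H_trans (hNH ξ hEM) (hPf1 ζ).1, ?_⟩
    exact Or.inl (Or.inl (Or.inl (Or.inl (Or.inl (Or.inr ⟨ζ, rfl, rfl⟩)))))
  · refine hKmem E hEM E hEM _ ⟨i1_mem_H hH _, ?_⟩
    exact Or.inl (Or.inl (Or.inl (Or.inl (Or.inl (Or.inl (Or.inr (Or.inr rfl)))))))
  · intro α hα
    refine hKmem E hEM (i2 α) hα _ ⟨i2_mem_H hH _, ?_⟩
    exact Or.inl (Or.inl (Or.inl (Or.inl (Or.inr ⟨α, rfl, rfl⟩))))
  · intro α hα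
    refine hKmem E hEM (i2 α) hα _ ⟨H_trans (hNH ξ hEM) (hQE α).2.2.1, ?_⟩
    exact Or.inl (Or.inl (Or.inl (Or.inr ⟨α, rfl, rfl⟩)))


theorem exists_theta (x : ZFSet.{0}) : ∃ θ : Cardinal.{0}, θ.IsRegular ∧ x ∈ H θ := by
  refine ⟨Order.succ (max ℵ₀ (ZFSet.vonNeumann x.rank).card),
    isRegular_succ (le_max_left _ _), ZFSet.vonNeumann x.rank,
    ZFSet.isTransitive_vonNeumann _, ZFSet.subset_vonNeumann_self x, ?_⟩
  exact Order.lt_succ_iff.2 (le_max_right _ _)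

/-- The 0-1 law for open set mappings implies that every function from `ω₁` to `ω₁` is bounded
on a club by the canonical function of an ordinal below `ω₂`. -/
theorem result : ZeroOneLaw → BoundedByCanonical := by
  intro h
  obtain ⟨θ, hθ, hH⟩ := exists_theta (ctbl w2)
  exact main hθ hH (h w2 θ card_w2 hθ hH)

end Pool.Agent.Results.MP_4b9105_lc.CanonicalBounding
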