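import Pool.Agent.H79.MC.Fin

/-!
# MP_4b9105_lc: Martin's Maximum for small posets implies the 0-1 law

Martin's Maximum for posets of size at most the continuum (the axiom `MMc`, known as `MM(c)`)
implies the full 0-1 law for open set mappings.

The definitions of the law are in `CanonicalBounding.lean`, those of the forcing axiom in
`Pool/Agent/H79/MC/Defs.lean`: `FName P` (names of functions from `ω₁` to `ω₁`), `PresStat P`
(`P` preserves the stationary subsets of `ω₁`), `IsFilt`, `MMc`.
-/

namespace Pool.Agent.Results.MP_4b9105_lc.MartinMaximumC

open Pool.Agent.Results.MP_4b9105_lc.CanonicalBounding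
open Pool.Agent.H79.MC

/-- **Martin's Maximum for posets of size at most the continuum implies the 0-1 law for open set
mappings**, for all uncountable `X` and all regular `θ` with `[X]^ω ∈ H(θ)`. -/
theorem result : MMc → ZeroOneLaw := main

end Pool.Agent.Results.MP_4b9105_lc.MartinMaximumC
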