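import Pool.Agent.H71.ZO.Stat

/-!
# MP_4b9105_lc: the 0-1 law for open set mappings and precipitous ideals

Under the 0-1 law for open set mappings, every normal precipitous ideal on `ω₁` is presaturated.
-/

namespace Pool.Agent.Results.MP_4b9105_lc.PrecipitousPresaturated

open Cardinal Ordinal Set
open Pool.Agent.Results.MP_4b9105_lc.CanonicalBounding
open Pool.Agent.H71.ZO

/-- `I` is a (proper, countably complete) normal ideal on `ω₁` containing all singletons. -/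
structure IsNormalIdeal (I : Set (Set (ω₁ : Ordinal.{0}).ToType)) : Prop where
  mono : ∀ A ∈ I, ∀ B ⊆ A, B ∈ I
  union : ∀ D : ℕ → Set (ω₁ : Ordinal.{0}).ToType, (∀ n, D n ∈ I) → (⋃ n, D n) ∈ I
  singleton : ∀ ξ, {ξ} ∈ I
  proper : Set.univ ∉ I
  normal : ∀ D : (ω₁ : Ordinal.{0}).ToType → Set (ω₁ : Ordinal.{0}).ToType, (∀ ξ, D ξ ∈ I) →
    {η | ∃ ξ < η, η ∈ D ξ} ∈ I

/-- An antichain: a family of `I`-positive sets with pairwise intersections in `I`. -/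
def IsAntichainMod (I W : Set (Set (ω₁ : Ordinal.{0}).ToType)) : Prop :=
  (∀ X ∈ W, X ∉ I) ∧ ∀ X ∈ W, ∀ Y ∈ W, X ≠ Y → X ∩ Y ∈ I

/-- An `I`-partition of `A`: a maximal antichain of `I`-positive subsets of `A`. -/
def IsPartitionMod (I : Set (Set (ω₁ : Ordinal.{0}).ToType)) (A : Set (ω₁ : Ordinal.{0}).ToType)
    (W : Set (Set (ω₁ : Ordinal.{0}).ToType)) : Prop :=
  IsAntichainMod I W ∧ (∀ X ∈ W, X ⊆ A) ∧ ∀ Y ⊆ A, Y ∉ I → ∃ X ∈ W, X ∩ Y ∉ I

/-- `I` is precipitous: for every `I`-positive `A` and every sequence `W 0, W 1, …` of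
`I`-partitions of `A`, each refining the one before, there are `X n ∈ W n` with
`X 0 ⊇ X 1 ⊇ …` and `⋂ n, X n` nonempty. -/
def Precipitous (I : Set (Set (ω₁ : Ordinal.{0}).ToType)) : Prop :=
  ∀ A ∉ I, ∀ W : ℕ → Set (Set (ω₁ : Ordinal.{0}).ToType), (∀ n, IsPartitionMod I A (W n)) →
    (∀ n, ∀ X ∈ W (n + 1), ∃ Y ∈ W n, X ⊆ Y) →
    ∃ X : ℕ → Set (ω₁ : Ordinal.{0}).ToType, (∀ n, X n ∈ W n) ∧ (∀ n, X (n + 1) ⊆ X n) ∧
      (⋂ n, X n).Nonempty

/-- `I` is presaturated: for every sequence of antichains and every `I`-positive `A` there is an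
`I`-positive `B ⊆ A` such that, for each of the antichains, at most `ℵ₁` of its members have
`I`-positive intersection with `B`. -/
def Presaturated (I : Set (Set (ω₁ : Ordinal.{0}).ToType)) : Prop :=
  ∀ W : ℕ → Set (Set (ω₁ : Ordinal.{0}).ToType), (∀ n, IsAntichainMod I (W n)) → ∀ A ∉ I,
    ∃ B ⊆ A, B ∉ I ∧ ∀ n, #{X | X ∈ W n ∧ X ∩ B ∉ I} ≤ ℵ₁

/-! ### Ideals -/

theorem IsNormalIdeal.empty {I : Set (Set W1)} (hI : IsNormalIdeal I) : ∅ ∈ I :=
  hI.mono _ (hI.singleton (Classical.arbitrary W1)) _ (empty_subset _)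

theorem IsNormalIdeal.union2 {I : Set (Set W1)} (hI : IsNormalIdeal I) {A B : Set W1}
    (hA : A ∈ I) (hB : B ∈ I) : A ∪ B ∈ I := by
  refine hI.mono _ (hI.union (fun n => if n = 0 then A else B) ?_) _ ?_
  · intro n
    by_cases h : n = 0
    · rw [if_pos h]
      exact hA
    · rw [if_neg h]
      exact hB
  · refine union_subset ?_ ?_
    · refine subset_iUnion_of_subset 0 ?_
      rw [if_pos rfl]
    · refine subset_iUnion_of_subset 1 ?_
      rw [if_neg one_ne_zero]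

theorem IsNormalIdeal.sUnion {I : Set (Set W1)} (hI : IsNormalIdeal I) {S : Set (Set W1)}
    (hS : S.Countable) (h : ∀ A ∈ S, A ∈ I) : ⋃₀ S ∈ I := by
  rcases S.eq_empty_or_nonempty with rfl | hne
  · rw [sUnion_empty]
    exact hI.empty
  · obtain ⟨f, rfl⟩ := hS.exists_eq_range hne
    rw [sUnion_range]
    exact hI.union f fun n => h _ (mem_range_self n)

theorem IsNormalIdeal.countable {I : Set (Set W1)} (hI : IsNormalIdeal I) {A : Set W1}
    (hA : A.Countable) : A ∈ I := by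
  have h := hI.sUnion (S := (fun x => ({x} : Set W1)) '' A) (hA.image _) (by
    rintro _ ⟨x, _, rfl⟩
    exact hI.singleton x)
  refine hI.mono _ h _ ?_
  intro x hx
  exact ⟨{x}, ⟨x, hx, rfl⟩, rfl⟩

theorem IsNormalIdeal.diff {I : Set (Set W1)} (hI : IsNormalIdeal I) {A B C : Set W1}
    (hA : A ∉ I) (hB : B ∈ I) (h : A ⊆ B ∪ C) : C ∉ I :=
  fun hC => hA (hI.mono _ (hI.union2 hB hC) _ h)

theorem exists_maximal {I W : Set (Set W1)} (hW : IsAntichainMod I W) :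
    ∃ W', W ⊆ W' ∧ IsAntichainMod I W' ∧ ∀ Y, Y ∉ I → ∃ X ∈ W', X ∩ Y ∉ I := by
  obtain ⟨m, hWm, hm⟩ := zorn_subset_nonempty {V | IsAntichainMod I V} (by
    intro c hc hchain hne
    refine ⟨⋃₀ c, ⟨?_, ?_⟩, fun s hs => subset_sUnion_of_mem hs⟩
    · rintro X ⟨V, hV, hX⟩
      exact (hc hV).1 X hX
    · rintro X ⟨V, hV, hX⟩ Y ⟨V', hV', hY⟩ hXY
      rcases hchain.total hV hV' with h | h
      · exact (hc hV').2 X (h hX) Y hY hXY
      · exact (hc hV).2 X hX Y (h hY) hXY) W hW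
  refine ⟨m, hWm, hm.prop, ?_⟩
  intro Y hY
  by_contra! hno
  have hYm : Y ∉ m := fun h => hY (by
    have := hno Y h
    rwa [inter_self] at this)
  have h1 : IsAntichainMod I (insert Y m) := by
    refine ⟨?_, ?_⟩
    · intro X hX
      rcases mem_insert_iff.1 hX with rfl | hX
      · exact hY
      · exact hm.prop.1 X hX
    · intro X hX Z hZ hXZ
      rcases mem_insert_iff.1 hX with hXY | hX'
      · rcases mem_insert_iff.1 hZ with hZY | hZ'
        · exact absurd (hXY.trans hZY.symm) hXZ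
        · rw [hXY, inter_comm]
          exact hno Z hZ'
      · rcases mem_insert_iff.1 hZ with hZY | hZ'
        · rw [hZY]
          exact hno X hX'
        · exact hm.prop.2 X hX' Z hZ' hXZ
  exact hYm (hm.le_of_ge h1 (subset_insert _ _) (mem_insert _ _))

/-! ### Good models from precipitousness -/

section Good

variable (I : Set (Set W1)) (cs : Set W1 → ZFSet.{0}) (G : Finset ZFSet.{0} → Set ZFSet.{0})

/-- The set of the `η` at which the model generated by `η` and `T` is good. -/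
def Gd (T : Set (Set W1)) : Set W1 :=
  {η | (∃ ζ, ζ < η) ∧ (∀ ζ, i1 ζ ∈ clo G (i1 '' Iio η ∪ cs '' T) → ζ < η) ∧
    ∀ D ∈ I, cs D ∈ clo G (i1 '' Iio η ∪ cs '' T) → η ∉ D}

variable {I cs G}

theorem Gd_anti {T T' : Set (Set W1)} (h : T ⊆ T') : Gd I cs G T' ⊆ Gd I cs G T := by
  rintro η ⟨h0, h1, h2⟩
  have hsub : clo G (i1 '' Iio η ∪ cs '' T) ⊆ clo G (i1 '' Iio η ∪ cs '' T') :=
    clo_mono G (union_subset_union_right _ (image_mono h))
  exact ⟨h0, fun ζ hζ => h1 ζ (hsub hζ), fun D hD hDM => h2 D hD (hsub hDM)⟩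

theorem clo_fin {T : Set (Set W1)} {η : W1} (h0 : ∃ ζ, ζ < η) {x : ZFSet.{0}}
    (hx : x ∈ clo G (i1 '' Iio η ∪ cs '' T)) :
    ∃ ζ < η, x ∈ clo G (i1 '' Iic ζ ∪ cs '' T) := by
  obtain ⟨s, hs, hxs⟩ := clo_finitary G hx
  have : ∃ ζ < η, (s : Set ZFSet.{0}) ⊆ i1 '' Iic ζ ∪ cs '' T := by
    clear hxs
    classical
    induction s using Finset.induction_on with
    | empty =>
      obtain ⟨ζ, hζ⟩ := h0
      exact ⟨ζ, hζ, by simp⟩
    | insert y s _ ih =>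
      rw [Finset.coe_insert, insert_subset_iff] at hs
      obtain ⟨ζ, hζ, hsζ⟩ := ih hs.2
      rcases hs.1 with ⟨ζ', hζ', rfl⟩ | hy
      · refine ⟨max ζ ζ', max_lt hζ hζ', ?_⟩
        rw [Finset.coe_insert, insert_subset_iff]
        exact ⟨Or.inl ⟨ζ', mem_Iic.2 (le_max_right _ _), rfl⟩, hsζ.trans
          (union_subset_union_left _
            (image_mono fun _ hx => mem_Iic.2 (le_trans (mem_Iic.1 hx) (le_max_left _ _))))⟩
      · refine ⟨ζ, hζ, ?_⟩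
        rw [Finset.coe_insert, insert_subset_iff]
        exact ⟨Or.inr hy, hsζ⟩
  obtain ⟨ζ, hζ, hsub⟩ := this
  exact ⟨ζ, hζ, clo_mono G hsub hxs⟩

theorem Gd_compl (hI : IsNormalIdeal I) (hcs : Function.Injective cs)
    (hG : ∀ s, (G s).Countable) {T : Set (Set W1)} (hT : T.Countable) :
    (Gd I cs G T)ᶜ ∈ I := by
  let N : W1 → Set ZFSet.{0} := fun ζ => clo G (i1 '' Iic ζ ∪ cs '' T)
  have hN : ∀ ζ, (N ζ).Countable := by
    intro ζ
    refine clo_countable G hG (Countable.union (Countable.image ?_ _) (hT.image _))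
    rw [← Iio_insert]
    exact (countable_Iio_W1 ζ).insert _
  let D : W1 → Set W1 := fun ζ => (⋃ κ ∈ {κ | i1 κ ∈ N ζ}, Iic κ) ∪ ⋃₀ {D | D ∈ I ∧ cs D ∈ N ζ}
  have hD : ∀ ζ, D ζ ∈ I := by
    intro ζ
    refine hI.union2 (hI.countable ?_) (hI.sUnion ?_ fun A hA => hA.1)
    · refine ((hN ζ).preimage i1_injective).biUnion fun κ _ => ?_
      rw [← Iio_insert]
      exact (countable_Iio_W1 κ).insert _
    · exact ((hN ζ).preimage hcs).mono fun A hA => hA.2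
  have h0 : {η : W1 | ∀ ζ, ¬ ζ < η} ∈ I := by
    refine hI.countable (Subsingleton.countable ?_)
    intro η hη η' hη'
    exact le_antisymm (not_lt.1 (hη η')) (not_lt.1 (hη' η))
  refine hI.mono _ (hI.union2 h0 (hI.normal D hD)) _ ?_
  intro η hη
  by_cases h : ∃ ζ, ζ < η
  · right
    by_contra hno
    refine hη ⟨h, ?_, ?_⟩
    · intro κ hκ
      by_contra! hle
      obtain ⟨ζ, hζ, hκζ⟩ := clo_fin h hκ
      exact hno ⟨ζ, hζ, Or.inl (mem_iUnion₂.2 ⟨κ, hκζ, hle⟩)⟩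
    · intro A hA hAM hηA
      obtain ⟨ζ, hζ, hAζ⟩ := clo_fin h hAM
      exact hno ⟨ζ, hζ, Or.inr ⟨A, ⟨hA, hAζ⟩, hηA⟩⟩
  · left
    intro ζ hζ
    exact h ⟨ζ, hζ⟩

/-- The members of the partitions. -/
def Bs (I : Set (Set W1)) (cs : Set W1 → ZFSet.{0}) (G : Finset ZFSet.{0} → Set ZFSet.{0})
    (A : Set W1) (n : ℕ) (s : ℕ → Set W1) : Set W1 :=
  {η | η ∈ A ∧ (∀ i ≤ n, η ∈ s i) ∧ η ∈ Gd I cs G (s '' Iic n)}

theorem exists_model (hI : IsNormalIdeal I) (hP : Precipitous I) {U : Set ZFSet.{0}}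
    (hU : ∀ η, i1 η ∈ U) (hcs : Function.Injective cs) (hcsU : ∀ D, cs D ∈ U)
    {W : ℕ → Set (Set W1)} (hW : ∀ n, IsAntichainMod I (W n))
    (hWm : ∀ n, ∀ Y, Y ∉ I → ∃ X ∈ W n, X ∩ Y ∉ I) {A : Set W1} (hA : A ∉ I)
    (hG : ∀ s, (G s).Countable) :
    ∃ (M : Set ZFSet.{0}) (δ : W1), M.Countable ∧ M ⊆ U ∧ Cl U G M ∧ Tr M δ ∧ δ ∈ A ∧
      (∃ ζ, ζ < δ) ∧ (∀ n, ∃ X ∈ W n, cs X ∈ M ∧ δ ∈ X) ∧ ∀ D ∈ I, cs D ∈ M → δ ∉ D := by
  classical
  let G' : Finset ZFSet.{0} → Set ZFSet.{0} := fun s => G s ∩ U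
  have hG' : ∀ s, (G' s).Countable := fun s => (hG s).mono inter_subset_left
  have hTc : ∀ (s : ℕ → Set W1) n, (s '' Iic n).Countable := fun s n => (to_countable _).image s
  -- the partitions
  let V : ℕ → Set (Set W1) := fun n =>
    {Y | Y ∉ I ∧ ∃ s : ℕ → Set W1, (∀ i, s i ∈ W i) ∧ Y = Bs I cs G' A n s}
  have hanti : ∀ n s, Bs I cs G' A (n + 1) s ⊆ Bs I cs G' A n s := by
    rintro n s η ⟨h1, h2, h3⟩
    exact ⟨h1, fun i hi => h2 i (hi.trans (Nat.le_succ n)),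
      Gd_anti (image_mono (Iic_subset_Iic.2 (Nat.le_succ n))) h3⟩
  have hpick : ∀ (n : ℕ) (Y : Set W1), ∃ X, Y ∉ I → X ∈ W n ∧ X ∩ Y ∉ I := by
    intro n Y
    by_cases hY : Y ∈ I
    · exact ⟨∅, fun h => absurd hY h⟩
    · obtain ⟨X, hX, hXY⟩ := hWm n Y hY
      exact ⟨X, fun _ => ⟨hX, hXY⟩⟩
  choose pick hpick using hpick
  have hV : ∀ n, IsPartitionMod I A (V n) := by
    intro n
    refine ⟨⟨fun X hX => hX.1, ?_⟩, ?_, ?_⟩
    · rintro X ⟨_, s, hs, rfl⟩ Y ⟨_, t, ht, rfl⟩ hne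
      obtain ⟨i, hi, hst⟩ : ∃ i ≤ n, s i ≠ t i := by
        by_contra! hno
        refine hne ?_
        have him : s '' Iic n = t '' Iic n := image_congr fun i hi => hno i hi
        ext η
        constructor
        · rintro ⟨h1, h2, h3⟩
          exact ⟨h1, fun i hi => hno i hi ▸ h2 i hi, him ▸ h3⟩
        · rintro ⟨h1, h2, h3⟩
          exact ⟨h1, fun i hi => (hno i hi).symm ▸ h2 i hi, him.symm ▸ h3⟩
      refine hI.mono _ ((hW i).2 _ (hs i) _ (ht i) hst) _ ?_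
      rintro η ⟨h1, h2⟩
      exact ⟨h1.2.1 i hi, h2.2.1 i hi⟩
    · rintro X ⟨_, s, hs, rfl⟩ η hη
      exact hη.1
    · intro Y hYA hY
      let Z : ℕ → Set W1 := fun k => Nat.rec Y (fun k Z => pick k Z ∩ Z) k
      have hZs : ∀ k, Z (k + 1) = pick k (Z k) ∩ Z k := fun _ => rfl
      have hZ : ∀ k, Z k ∉ I := by
        intro k
        induction k with
        | zero => exact hY
        | succ k ih =>
          rw [hZs]
          exact (hpick k _ ih).2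
      let s : ℕ → Set W1 := fun k => pick k (Z k)
      have hs : ∀ k, s k ∈ W k := fun k => (hpick k _ (hZ k)).1
      have hZY : ∀ k, Z k ⊆ Y := by
        intro k
        induction k with
        | zero => exact Subset.rfl
        | succ k ih =>
          rw [hZs]
          exact inter_subset_right.trans ih
      have hZsub : ∀ k, ∀ i < k, Z k ⊆ s i := by
        intro k
        induction k with
        | zero =>
          intro i hi
          exact absurd hi (Nat.not_lt_zero i)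
        | succ k ih =>
          intro i hi
          rw [hZs]
          rcases Nat.lt_succ_iff_lt_or_eq.1 hi with h | rfl
          · exact inter_subset_right.trans (ih i h)
          · exact inter_subset_left
      have hpos : Bs I cs G' A n s ∩ Y ∉ I := by
        refine hI.diff (hZ (n + 1)) (Gd_compl hI hcs hG' (hTc s n)) ?_
        intro η hη
        by_cases hηG : η ∈ Gd I cs G' (s '' Iic n)
        · right
          have hηY : η ∈ Y := hZY (n + 1) hη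
          exact ⟨⟨hYA hηY, fun i hi => hZsub (n + 1) i (Nat.lt_succ_of_le hi) hη, hηG⟩, hηY⟩
        · exact Or.inl hηG
      exact ⟨_, ⟨fun h => hpos (hI.mono _ h _ inter_subset_left), s, hs, rfl⟩, hpos⟩
  have href : ∀ n, ∀ X ∈ V (n + 1), ∃ Y ∈ V n, X ⊆ Y := by
    rintro n X ⟨hX, s, hs, rfl⟩
    exact ⟨_, ⟨fun h => hX (hI.mono _ h _ (hanti n s)), s, hs, rfl⟩, hanti n s⟩
  obtain ⟨X, hXV, hXanti, δ, hδ⟩ := hP A hA V hV href
  rw [mem_iInter] at hδ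
  choose hXI s hs hXs using hXV
  have hcomp : ∀ n, ∀ i ≤ n, s (n + 1) i = s n i := by
    intro n i hi
    by_contra hne
    refine hXI (n + 1) (hI.mono _ ((hW i).2 _ (hs (n + 1) i) _ (hs n i) hne) _ ?_)
    intro η hη
    have h1 := hη
    have h2 := hXanti n hη
    rw [hXs (n + 1)] at h1
    rw [hXs n] at h2
    exact ⟨h1.2.1 i (hi.trans (Nat.le_succ n)), h2.2.1 i hi⟩
  have ht : ∀ n, ∀ i ≤ n, s n i = s i i := by
    intro n
    induction n with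
    | zero =>
      intro i hi
      rw [Nat.le_zero.1 hi]
    | succ n ih =>
      intro i hi
      rcases Nat.le_succ_iff.1 hi with h | rfl
      · rw [hcomp n i h, ih i h]
      · rfl
  let t : ℕ → Set W1 := fun i => s i i
  have him : ∀ n, s n '' Iic n = t '' Iic n := fun n => image_congr fun i hi => ht n i hi
  have hδ' : ∀ n, δ ∈ A ∧ (∀ i ≤ n, δ ∈ t i) ∧ δ ∈ Gd I cs G' (t '' Iic n) := by
    intro n
    have h := hδ n
    rw [hXs n] at h
    obtain ⟨h1, h2, h3⟩ := h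
    rw [him n] at h3
    exact ⟨h1, fun i hi => by
      have := h2 i hi
      rwa [ht n i hi] at this, h3⟩
  let Mn : ℕ → Set ZFSet.{0} := fun n => clo G' (i1 '' Iio δ ∪ cs '' (t '' Iic n))
  have hMn : ∀ n, Mn n ⊆ Mn (n + 1) := fun n =>
    clo_mono G' (union_subset_union_right _ (image_mono (image_mono
      (Iic_subset_Iic.2 (Nat.le_succ n)))))
  refine ⟨⋃ n, Mn n, δ, ?_, ?_, ?_, ?_, (hδ' 0).1, (hδ' 0).2.2.1, ?_, ?_⟩
  · refine countable_iUnion fun n => clo_countable G' hG' ?_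
    exact ((countable_Iio_W1 δ).image _).union ((hTc t n).image _)
  · refine iUnion_subset fun n => clo_min (union_subset ?_ ?_) fun _ _ => inter_subset_right
    · rintro _ ⟨η, _, rfl⟩
      exact hU η
    · rintro _ ⟨D, _, rfl⟩
      exact hcsU D
  · refine Cl_chain U G Mn hMn fun n a ha => ?_
    exact clo_closed G' _ a ha
  · intro η
    constructor
    · intro hη
      obtain ⟨n, hn⟩ := mem_iUnion.1 hη
      exact (hδ' n).2.2.2.1 η hn
    · intro hη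
      exact mem_iUnion.2 ⟨0, subset_clo G' _ (Or.inl ⟨η, hη, rfl⟩)⟩
  · intro n
    refine ⟨t n, hs n n, mem_iUnion.2 ⟨n, subset_clo G' _ (Or.inr ?_)⟩, (hδ' n).2.1 n le_rfl⟩
    exact ⟨t n, ⟨n, mem_Iic.2 le_rfl, rfl⟩, rfl⟩
  · intro D hD hDM
    obtain ⟨n, hn⟩ := mem_iUnion.1 hDM
    exact (hδ' n).2.2.2.2 D hD hn

end Good

/-! ### The open set mapping -/

/-- The open set mapping built from enumerations `a` of the `δ < ω₁` and a relation `R`. -/
def mpR (X : ZFSet.{0}) (a : W1 → ℕ → W1) (R : W1 → ZFSet.{0} → ℕ → Prop)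
    (M : Set ZFSet.{0}) : Set ZFSet.{0} :=
  {P | P ∈ ctbl X ∧ ∃ x ∈ P, ∃ n : ℕ, (∀ η : W1, i1 η ∈ P → η < a (dl M) n) ∧
    ∀ m ≤ n, R (dl M) x m}

theorem mpR_open (X : ZFSet.{0}) (a : W1 → ℕ → W1) (R : W1 → ZFSet.{0} → ℕ → Prop)
    (M : Set ZFSet.{0}) : IsOpenX X (mpR X a R M) := by
  rintro P ⟨hP, x, hx, n, hn, hm⟩
  refine ⟨{x}, P, ?_, hP, ?_, fun _ h => h, ?_⟩
  · rw [ZFSet.card_singleton]
    exact one_lt_aleph0
  · intro z hz
    rw [ZFSet.mem_singleton] at hz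
    rwa [hz]
  · intro Q hQ h1 h2
    exact ⟨hQ, x, h1 (ZFSet.mem_singleton.2 rfl), n, fun η hη => hn η (h2 hη), hm⟩

theorem mpR_endExt (X : ZFSet.{0}) (a : W1 → ℕ → W1) (R : W1 → ZFSet.{0} → ℕ → Prop)
    (M : Set ZFSet.{0}) (P : ZFSet.{0}) (hP : P ∈ mpR X a R M) (P' : ZFSet.{0})
    (hP' : P' ∈ ctbl X) (hE : EndExt (P : Set ZFSet.{0}) P') : P' ∈ mpR X a R M := by
  obtain ⟨_, x, hx, n, hn, hm⟩ := hP
  refine ⟨hP', x, hE.1 hx, n, fun η hη => hn η ?_, hm⟩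
  have : i1 η ∈ (P' : Set ZFSet.{0}) ∩ w1 := ⟨hη, mem_w1.2 ⟨η, rfl⟩⟩
  rw [hE.2] at this
  exact this.1

theorem mpR_isOpenMapping {X : ZFSet.{0}} {θ : Cardinal.{0}} (hθ : ℵ₀ ≤ θ) (hX : X ∈ H θ)
    (a : W1 → ℕ → W1) (R : W1 → ZFSet.{0} → ℕ → Prop) :
    IsOpenMapping X θ {M | IsCtblElem θ M ∧ X ∈ M} (mpR X a R) where
  club := club_elem hθ hX
  mem := fun _ h => h.2
  subset := fun _ _ _ hP => hP.1
  isOpen := fun M _ => mpR_open X a R M

/-! ### Codes of sequences of subsets of `ω₁` -/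

theorem exists_surj {α : Type} (h : #α ≤ ℵ₁) [Nonempty α] :
    ∃ p : W1 → α, Function.Surjective p := by
  have : #α ≤ #W1 := by rwa [card_W1]
  obtain ⟨g⟩ := this
  exact ⟨Function.invFun g, Function.invFun_surjective g.injective⟩

/-- `X` contains codes, read by `sq`, for all `ω₁`-sequences of subsets of `ω₁`. -/
structure Coding (X : ZFSet.{0}) (sq : ZFSet.{0} → W1 → Set W1)
    (cd : (W1 → Set W1) → ZFSet.{0}) : Prop where
  w1_subset : w1 ⊆ X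
  mem : ∀ s, cd s ∈ X
  sq_cd : ∀ s, sq (cd s) = s

section Coding

variable {X : ZFSet.{0}} {sq : ZFSet.{0} → W1 → Set W1} {cd : (W1 → Set W1) → ZFSet.{0}}

theorem Coding.cover (hc : Coding X sq cd) (s : W1 → ZFSet.{0}) :
    ∃ z ∈ X, ∀ ξ i, ∃ j, sq z j = sq (s ξ) i := by
  obtain ⟨p, hp⟩ := exists_surj (α := W1 × W1) (by
    rw [mk_prod, Cardinal.lift_id, card_W1, mul_eq_self (aleph0_le_aleph 1)])
  refine ⟨cd fun j => sq (s (p j).1) (p j).2, hc.mem _, fun ξ i => ?_⟩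
  obtain ⟨j, hj⟩ := hp (ξ, i)
  refine ⟨j, ?_⟩
  rw [hc.sq_cd, hj]

theorem Coding.clubA (hc : Coding X sq cd) {E : ZFSet.{0}} (hE : IsClubX X E) :
    ∃ (Pf : W1 → ZFSet.{0}) (xs : ZFSet.{0}), (∀ ζ, Pf ζ ∈ E ∧ ∀ η ≤ ζ, i1 η ∈ Pf ζ) ∧
      xs ∈ X ∧ ∀ ζ, ∀ x ∈ Pf ζ, ∀ i, ∃ j, sq xs j = sq x i := by
  have h1 : ∀ ζ : W1, ∃ P ∈ E, ∀ η ≤ ζ, i1 η ∈ P := by
    intro ζ
    obtain ⟨Q, hQ, hQ'⟩ := exists_ctbl (X := X) (i1 '' Iic ζ)
      (by rintro _ ⟨η, _, rfl⟩; exact hc.w1_subset (mem_w1.2 ⟨η, rfl⟩))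
      (by
        refine Countable.image ?_ _
        rw [← Iio_insert]
        exact (countable_Iio_W1 ζ).insert _)
    obtain ⟨P, hP, hQP⟩ := hE.unbounded Q hQ
    exact ⟨P, hP, fun η hη => hQP ((hQ' _).2 ⟨η, hη, rfl⟩)⟩
  choose Pf hPf using h1
  have h2 : ∀ ζ, ∃ e : ℕ → ZFSet.{0}, (Pf ζ : Set ZFSet.{0}) = range e := by
    intro ζ
    exact (mem_ctbl.1 (hE.subset (hPf ζ).1)).2.exists_eq_range ⟨_, (hPf ζ).2 ζ le_rfl⟩
  choose e he using h2
  obtain ⟨p, hp⟩ := exists_surj (α := W1 × ℕ) (by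
    rw [mk_prod, Cardinal.lift_id, Cardinal.lift_id, card_W1, mk_nat, mul_aleph0_eq (aleph0_le_aleph 1)])
  obtain ⟨xs, hxs, hcov⟩ := hc.cover fun ξ => e (p ξ).1 (p ξ).2
  refine ⟨Pf, xs, hPf, hxs, ?_⟩
  intro ζ x hx i
  have hx' : x ∈ (Pf ζ : Set ZFSet.{0}) := hx
  rw [he] at hx'
  obtain ⟨n, rfl⟩ := hx'
  obtain ⟨ξ, hξ⟩ := hp (ζ, n)
  obtain ⟨j, hj⟩ := hcov ξ i
  refine ⟨j, ?_⟩
  rw [hj, hξ]

theorem Coding.clubB (hc : Coding X sq cd) {E : ZFSet.{0}} (hE : IsClubX X E) :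
    ∃ (ν : W1) (up : ZFSet.{0} → ZFSet.{0}) (Q : ZFSet.{0} → ZFSet.{0}), ∀ x,
      (∀ i, ∃ j, sq (up x) j = sq x i) ∧ up x ∈ Q x ∧ Q x ∈ E ∧ ∀ η, i1 η ∈ Q x → η < ν := by
  have h1 : ∀ y : ZFSet.{0}, ∃ P, y ∈ X → P ∈ E ∧ y ∈ P := by
    intro y
    by_cases hy : y ∈ X
    · obtain ⟨Q, hQ, hQ'⟩ := exists_ctbl (X := X) {y}
        (by rintro _ rfl; exact hy) (countable_singleton _)
      obtain ⟨P, hP, hQP⟩ := hE.unbounded Q hQ
      exact ⟨P, fun _ => ⟨hP, hQP ((hQ' _).2 rfl)⟩⟩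
    · exact ⟨∅, fun h => absurd h hy⟩
  choose P hP using h1
  have h2 : ∀ y : ZFSet.{0}, ∃ ν : W1, y ∈ X → ∀ η, i1 η ∈ P y → η < ν := by
    intro y
    by_cases hy : y ∈ X
    · have hc : {η : W1 | i1 η ∈ P y}.Countable :=
        (mem_ctbl.1 (hE.subset (hP y hy).1)).2.preimage i1_injective
      obtain ⟨b, hb⟩ := bdd_W1 _ hc
      exact ⟨b, fun _ η hη => hb η hη⟩
    · exact ⟨Classical.arbitrary _, fun h => absurd h hy⟩
  choose ν hν using h2
  obtain ⟨ν', hν'⟩ : ∃ ν' : W1, ∀ x : ZFSet.{0}, ∃ y ∈ X, (∀ i, ∃ j, sq y j = sq x i) ∧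
      ν y ≤ ν' := by
    by_contra! h
    choose g hg using h
    obtain ⟨y, hy, hcov⟩ := hc.cover g
    exact absurd (hg (ν y) y hy (hcov (ν y))) (lt_irrefl _)
  choose up hup1 hup2 hup3 using hν'
  exact ⟨ν', up, fun x => P (up x), fun x => ⟨hup2 x, (hP _ (hup1 x)).2, (hP _ (hup1 x)).1,
    fun η hη => (hν _ (hup1 x) η hη).trans_le (hup3 x)⟩⟩

end Coding

/-! ### Closure under finitely many functions of three variables -/

/-- The operation given by a list of functions. -/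
def Glst (L : List (ZFSet.{0} → ZFSet.{0} → ZFSet.{0} → ZFSet.{0})) (s : Finset ZFSet.{0}) :
    Set ZFSet.{0} :=
  ⋃ f ∈ {f | f ∈ L}, ⋃ x ∈ s, ⋃ y ∈ s, ⋃ z ∈ s, {f x y z}

theorem Glst_countable (L : List (ZFSet.{0} → ZFSet.{0} → ZFSet.{0} → ZFSet.{0}))
    (s : Finset ZFSet.{0}) : (Glst L s).Countable :=
  L.finite_toSet.countable.biUnion fun _ _ => s.countable_toSet.biUnion fun _ _ =>
    s.countable_toSet.biUnion fun _ _ => s.countable_toSet.biUnion fun _ _ =>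
      countable_singleton _

theorem Glst_spec {U : Set ZFSet.{0}}
    {L : List (ZFSet.{0} → ZFSet.{0} → ZFSet.{0} → ZFSet.{0})} {M : Set ZFSet.{0}}
    (h : Cl U (Glst L) M) {f : ZFSet.{0} → ZFSet.{0} → ZFSet.{0} → ZFSet.{0}} (hf : f ∈ L)
    {x y z : ZFSet.{0}} (hx : x ∈ M) (hy : y ∈ M) (hz : z ∈ M) (hU : f x y z ∈ U) :
    f x y z ∈ M := by
  classical
  refine h {x, y, z} (by
    rw [Finset.coe_insert, Finset.coe_insert, Finset.coe_singleton]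
    exact insert_subset hx (insert_subset hy (singleton_subset_iff.2 hz))) ⟨?_, hU⟩
  exact mem_iUnion₂.2 ⟨f, hf, mem_iUnion₂.2 ⟨x, by simp, mem_iUnion₂.2 ⟨y, by simp,
    mem_iUnion₂.2 ⟨z, by simp, rfl⟩⟩⟩⟩

/-! ### Using the 0-1 law -/

/-- The code `x` captures, below `η`, a member of `W n` which contains `η`. -/
def Cap (sq : ZFSet.{0} → W1 → Set W1) (W : ℕ → Set (Set W1)) (η : W1) (x : ZFSet.{0})
    (n : ℕ) : Prop :=
  ∃ i < η, sq x i ∈ W n ∧ η ∈ sq x i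

/-- The conclusion of the 0-1 law at a model closed under suitable functions. -/
theorem at_model {X : ZFSet.{0}} {sq : ZFSet.{0} → W1 → Set W1}
    {a : W1 → ℕ → W1} {W : ℕ → Set (Set W1)} {M : Set ZFSet.{0}} {δ : W1} (htr : Tr M δ)
    (h0 : ∃ ζ, ζ < δ) (ha : range (a δ) = Iio δ) (cs : Set W1 → ZFSet.{0})
    (hcs : ∀ D i, sq (cs D) i = D)
    (hsub : ∀ P ∈ M, P ∈ ctbl X → ∀ z ∈ P, z ∈ M)
    (ix : ZFSet.{0} → ZFSet.{0} → W1 → W1)
    (hix : ∀ y x i, (∃ j, sq y j = sq x i) → sq y (ix y x i) = sq x i)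
    (hixM : ∀ y ∈ M, ∀ x ∈ M, ∀ i < δ, ix y x i < δ)
    (app : ZFSet.{0} → ZFSet.{0} → ZFSet.{0})
    (happ : ∀ x c i, (∃ j, sq (app x c) j = sq x i) ∧ ∃ j, sq (app x c) j = sq c i)
    (happM : ∀ x ∈ M, ∀ c ∈ M, app x c ∈ M)
    {E : ZFSet.{0}} (hE : IsClubX X E)
    (Pf : W1 → ZFSet.{0}) (xs : ZFSet.{0}) (hxsM : xs ∈ M) (hPfM : ∀ ζ < δ, Pf ζ ∈ M)
    (hPf : ∀ ζ, Pf ζ ∈ E ∧ ∀ η ≤ ζ, i1 η ∈ Pf ζ)
    (hxs : ∀ ζ, ∀ x ∈ Pf ζ, ∀ i, ∃ j, sq xs j = sq x i)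
    (ν : W1) (up : ZFSet.{0} → ZFSet.{0}) (Q : ZFSet.{0} → ZFSet.{0}) (hνM : i1 ν ∈ M)
    (hupM : ∀ x ∈ M, up x ∈ M) (hQM : ∀ x ∈ M, Q x ∈ M)
    (hQ : ∀ x, (∀ i, ∃ j, sq (up x) j = sq x i) ∧ up x ∈ Q x ∧ Q x ∈ E ∧
      ∀ η, i1 η ∈ Q x → η < ν)
    (hW : ∀ n, ∃ C ∈ W n, cs C ∈ M ∧ δ ∈ C)
    (h01 : (∀ P ∈ E, P ∈ M → P ∈ mpR X a (Cap sq W) M) ∨
      (∀ P ∈ E, P ∈ M → P ∉ mpR X a (Cap sq W) M)) :
    ∃ x ∈ M, ∀ n, Cap sq W δ x n := by
  have hdl : dl M = δ := dl_eq htr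
  have haδ : ∀ n, a δ n < δ := fun n => by
    have : a δ n ∈ Iio δ := ha ▸ mem_range_self n
    exact this
  rcases h01 with h01 | h01
  · refine ⟨xs, hxsM, fun m => ?_⟩
    obtain ⟨ζ, hζ, hζa⟩ := exists_bound_fin δ (a δ) haδ m
    obtain ⟨hPc, x, hx, n, hn, hn'⟩ := h01 (Pf ζ) (hPf ζ).1 (hPfM ζ hζ)
    rw [hdl] at hn hn'
    have h3 : ζ < a δ n := hn ζ ((hPf ζ).2 ζ le_rfl)
    have h4 : m ≤ n := by
      by_contra! hlt'
      exact absurd (hζa n hlt'.le) (not_le.2 h3)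
    obtain ⟨i, hi, hiW, hiδ⟩ := hn' m h4
    have hxM : x ∈ M := hsub _ (hPfM ζ hζ) hPc x hx
    have h5 := hix xs x i (hxs ζ x hx i)
    refine ⟨ix xs x i, hixM xs hxsM x hxM i hi, ?_, ?_⟩
    · rwa [h5]
    · rwa [h5]
  · exfalso
    choose C hCW hCM hCδ using hW
    obtain ⟨n, hn⟩ : ν ∈ range (a δ) := by
      rw [ha]
      exact (htr ν).1 hνM
    obtain ⟨x, hxM, hx⟩ : ∃ x ∈ M, ∀ m ≤ n, ∃ j, sq x j = C m := by
      clear hn
      induction n with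
      | zero =>
        obtain ⟨ζ, hζ⟩ := h0
        exact ⟨cs (C 0), hCM 0, fun m hm => ⟨ζ, by rw [Nat.le_zero.1 hm, hcs]⟩⟩
      | succ n ih =>
        obtain ⟨x, hxM, hx⟩ := ih
        refine ⟨app x (cs (C (n + 1))), happM x hxM _ (hCM _), fun m hm => ?_⟩
        rcases Nat.le_succ_iff.1 hm with hm | rfl
        · obtain ⟨i, hi⟩ := hx m hm
          obtain ⟨j, hj⟩ := (happ x (cs (C (n + 1))) i).1
          exact ⟨j, hj.trans hi⟩
        · obtain ⟨ζ, hζ⟩ := h0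
          obtain ⟨j, hj⟩ := (happ x (cs (C (n + 1))) ζ).2
          exact ⟨j, hj.trans (hcs _ _)⟩
    obtain ⟨hup, hupQ, hQE, hQν⟩ := hQ x
    refine h01 (Q x) hQE (hQM x hxM) ⟨hE.subset hQE, up x, hupQ, n, ?_, ?_⟩
    · rw [hdl, hn]
      exact hQν
    · rw [hdl]
      intro m hm
      obtain ⟨i, hi⟩ := hx m hm
      obtain ⟨j, hj⟩ := hup i
      obtain ⟨ζ, hζ⟩ := h0
      have h5 : sq (up x) (ix (up x) (cs (C m)) ζ) = C m := by
        rw [hix _ _ _ ⟨j, by rw [hj, hi, hcs]⟩, hcs]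
      refine ⟨ix (up x) (cs (C m)) ζ, hixM _ (hupM x hxM) _ (hCM m) ζ hζ, ?_, ?_⟩
      · rw [h5]
        exact hCW m
      · rw [h5]
        exact hCδ m

theorem presat {X : ZFSet.{0}} {θ : Cardinal.{0}} {sq : ZFSet.{0} → W1 → Set W1}
    {cd : (W1 → Set W1) → ZFSet.{0}} (hc : Coding X sq cd) (hθ : ℵ₀ < θ) (hH : ctbl X ∈ H θ)
    (h01 : ZeroOneLawAt X θ) {I : Set (Set W1)} (hI : IsNormalIdeal I) (hP : Precipitous I) :
    Presaturated I := by
  classical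
  intro W0 hW0 A hA
  choose W hW0W hW hWm using fun n => exists_maximal (hW0 n)
  have hXH : X ∈ H θ := X_mem_H hH
  have hU : ∀ η, i1 η ∈ H θ := i1_mem_H' hθ
  -- enumerations
  obtain ⟨a, ha⟩ : ∃ a : W1 → ℕ → W1, ∀ δ, (Iio δ).Nonempty → range (a δ) = Iio δ := by
    have : ∀ δ : W1, ∃ a : ℕ → W1, (Iio δ).Nonempty → range a = Iio δ := by
      intro δ
      by_cases h : (Iio δ).Nonempty
      · obtain ⟨a, ha⟩ := exists_enum_W1 δ h
        exact ⟨a, fun _ => ha⟩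
      · exact ⟨fun _ => δ, fun h' => absurd h' h⟩
    choose a ha using this
    exact ⟨a, ha⟩
  -- codes of single sets
  let cs : Set W1 → ZFSet.{0} := fun D => cd fun _ => D
  have hcs : ∀ D i, sq (cs D) i = D := fun D i => by
    show sq (cd fun _ => D) i = D
    rw [hc.sq_cd]
  have hcsinj : Function.Injective cs := by
    intro D D' h
    have h1 := hcs D (Classical.arbitrary W1)
    rw [h, hcs] at h1
    exact h1.symm
  have hcsU : ∀ D, cs D ∈ H θ := fun D => H_trans hXH (hc.mem _)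
  -- the law
  obtain ⟨D', hD'sub, hD'club, hD'⟩ := h01 _ (mpR X a (Cap sq W))
    (mpR_isOpenMapping hθ.le hXH a (Cap sq W))
    (fun M _ P hP P' hP' hE => mpR_endExt X a _ M P hP P' hP' hE)
    (fun M _ M' _ hE => by
      have := dl_congr hE.2
      simp only [mpR, this])
  obtain ⟨F, hFc, hFH, hF⟩ := kueker hD'club
  -- the functions
  have hA1 : ∀ E : ZFSet.{0}, ∃ (Pf : W1 → ZFSet.{0}) (xs : ZFSet.{0}), IsClubX X E →
      (∀ ζ, Pf ζ ∈ E ∧ ∀ η ≤ ζ, i1 η ∈ Pf ζ) ∧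
      xs ∈ X ∧ ∀ ζ, ∀ x ∈ Pf ζ, ∀ i, ∃ j, sq xs j = sq x i := by
    intro E
    by_cases hE : IsClubX X E
    · obtain ⟨Pf, xs, h⟩ := hc.clubA hE
      exact ⟨Pf, xs, fun _ => h⟩
    · exact ⟨fun _ => ∅, ∅, fun h => absurd h hE⟩
  choose Pf xs hPf using hA1
  have hB1 : ∀ E : ZFSet.{0}, ∃ (ν : W1) (up : ZFSet.{0} → ZFSet.{0})
      (Q : ZFSet.{0} → ZFSet.{0}), IsClubX X E → ∀ x,
      (∀ i, ∃ j, sq (up x) j = sq x i) ∧ up x ∈ Q x ∧ Q x ∈ E ∧ ∀ η, i1 η ∈ Q x → η < ν := by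
    intro E
    by_cases hE : IsClubX X E
    · obtain ⟨ν, up, Q, h⟩ := hc.clubB hE
      exact ⟨ν, up, Q, fun _ => h⟩
    · exact ⟨Classical.arbitrary _, fun _ => ∅, fun _ => ∅, fun h => absurd h hE⟩
  choose ν up Q hQ using hB1
  have hC1 : ∀ x c : ZFSet.{0}, ∃ z ∈ X, ∀ i, (∃ j, sq z j = sq x i) ∧ ∃ j, sq z j = sq c i := by
    intro x c
    obtain ⟨b, hb⟩ := bdd_W1 {Classical.arbitrary W1} (countable_singleton _)
    have hne : b ≠ Classical.arbitrary W1 := (hb _ rfl).ne'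
    obtain ⟨z, hz, hcov⟩ := hc.cover fun ξ => if ξ = b then x else c
    refine ⟨z, hz, fun i => ⟨?_, ?_⟩⟩
    · obtain ⟨j, hj⟩ := hcov b i
      rw [if_pos rfl] at hj
      exact ⟨j, hj⟩
    · obtain ⟨j, hj⟩ := hcov (Classical.arbitrary W1) i
      rw [if_neg hne.symm] at hj
      exact ⟨j, hj⟩
  choose app happX happ using hC1
  have hD1 : ∀ (y x : ZFSet.{0}) (i : W1), ∃ k, (∃ j, sq y j = sq x i) → sq y k = sq x i := by
    intro y x i
    by_cases h : ∃ j, sq y j = sq x i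
    · obtain ⟨j, hj⟩ := h
      exact ⟨j, fun _ => hj⟩
    · exact ⟨Classical.arbitrary _, fun h' => absurd h' h⟩
  choose ix hix using hD1
  let k : ZFSet.{0} → W1 := Function.invFun i1
  have hk : ∀ η, k (i1 η) = η := Function.leftInverse_invFun i1_injective
  let Bx : ZFSet.{0} → Set W1 := fun x => {η | η ∈ A ∧ ∀ n, Cap sq W η x n}
  -- the closure operation
  let f1 : ZFSet.{0} → ZFSet.{0} → ZFSet.{0} → ZFSet.{0} := fun E z _ => Pf E (k z)
  let f2 : ZFSet.{0} → ZFSet.{0} → ZFSet.{0} → ZFSet.{0} := fun E _ _ => xs E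
  let f3 : ZFSet.{0} → ZFSet.{0} → ZFSet.{0} → ZFSet.{0} := fun E _ _ => i1 (ν E)
  let f4 : ZFSet.{0} → ZFSet.{0} → ZFSet.{0} → ZFSet.{0} := fun E x _ => up E x
  let f5 : ZFSet.{0} → ZFSet.{0} → ZFSet.{0} → ZFSet.{0} := fun E x _ => Q E x
  let f6 : ZFSet.{0} → ZFSet.{0} → ZFSet.{0} → ZFSet.{0} := fun x c _ => app x c
  let f7 : ZFSet.{0} → ZFSet.{0} → ZFSet.{0} → ZFSet.{0} := fun y x z => i1 (ix y x (k z))
  let f8 : ZFSet.{0} → ZFSet.{0} → ZFSet.{0} → ZFSet.{0} := fun x _ _ => cs (Bx x)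
  let L : List (ZFSet.{0} → ZFSet.{0} → ZFSet.{0} → ZFSet.{0}) := [f1, f2, f3, f4, f5, f6, f7, f8]
  let G : Finset ZFSet.{0} → Set ZFSet.{0} := fun s => F s ∪ Gel s ∪ Glst L s
  have hG : ∀ s, (G s).Countable := fun s =>
    ((hFc s).union (Gel_countable s)).union (Glst_countable L s)
  obtain ⟨M, δ, hMc, hMH, hMG, htr, hδA, h0, hMW, hMI⟩ :=
    exists_model hI hP hU hcsinj hcsU hW hWm hA hG
  have hMF : ∀ s : Finset ZFSet.{0}, (s : Set ZFSet.{0}) ⊆ M → F s ⊆ M := fun s hs =>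
    (subset_inter (subset_union_left.trans subset_union_left) (hFH s (hs.trans hMH))).trans
      (hMG s hs)
  have hMel : Cl (H θ) Gel M := hMG.mono fun s z hz => Or.inl (Or.inr hz)
  have hML : Cl (H θ) (Glst L) M := hMG.mono fun s z hz => Or.inr hz
  have hMD : M ∈ D' := hF M hMc hMH hMF
  obtain ⟨E, hEM, hE, halt⟩ := hD' M hMD
  obtain ⟨hPf1, hxsX, hPf2⟩ := hPf E hE
  have hQE := hQ E hE
  have hXU : ∀ z ∈ X, z ∈ H θ := fun z hz => H_trans hXH hz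
  have hEU : ∀ z ∈ E, z ∈ H θ := fun z hz => H_trans (hMH hEM) hz
  obtain ⟨x, hxM, hx⟩ := at_model (X := X) (sq := sq) (a := a) (W := W) htr h0 (ha δ h0) cs hcs
    (fun P hP hPc z hz => Gel_spec hMel hP (mem_ctbl.1 hPc).2 hz (H_trans (hMH hP) hz))
    ix hix (fun y hy x hx i hi => (htr _).1 (by
      have h := Glst_spec hML (f := f7) (by simp [L]) hy hx ((htr i).2 hi) (hU _)
      have h2 : f7 y x (i1 i) = i1 (ix y x i) := by
        show i1 (ix y x (k (i1 i))) = _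
        rw [hk]
      rwa [h2] at h))
    app happ (fun x hx c hc' => Glst_spec hML (f := f6) (by simp [L]) hx hc' hc'
      (hXU _ (happX x c)))
    hE (Pf E) (xs E) (Glst_spec hML (f := f2) (by simp [L]) hEM hEM hEM (hXU _ hxsX))
    (fun ζ hζ => by
      have h2 : f1 E (i1 ζ) E = Pf E ζ := by
        show Pf E (k (i1 ζ)) = _
        rw [hk]
      have h := Glst_spec hML (f := f1) (by simp [L]) hEM ((htr ζ).2 hζ) hEM
        (by rw [h2]; exact hEU _ (hPf1 ζ).1)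
      rwa [h2] at h)
    hPf1 hPf2 (ν E) (up E) (Q E) (Glst_spec hML (f := f3) (by simp [L]) hEM hEM hEM (hU _))
    (fun x hx => Glst_spec hML (f := f4) (by simp [L]) hEM hx hx
      (H_trans (hEU _ (hQE x).2.2.1) (hQE x).2.1))
    (fun x hx => Glst_spec hML (f := f5) (by simp [L]) hEM hx hx (hEU _ (hQE x).2.2.1))
    hQE hMW halt
  -- the positive set
  have hBI : Bx x ∉ I := by
    intro hBI
    refine hMI (Bx x) hBI ?_ ⟨hδA, hx⟩
    exact Glst_spec hML (f := f8) (by simp [L]) hxM hxM hxM (hcsU _)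
  refine ⟨Bx x, fun η hη => hη.1, hBI, fun n => ?_⟩
  have hsub : {Y | Y ∈ W0 n ∧ Y ∩ Bx x ∉ I} ⊆ range (sq x) := by
    rintro Y ⟨hY, hYB⟩
    by_contra hno
    have hYW : Y ∈ W n := hW0W n hY
    let D : W1 → Set W1 := fun i => if sq x i ∈ W n then Y ∩ sq x i else ∅
    have hD : ∀ i, D i ∈ I := by
      intro i
      by_cases h : sq x i ∈ W n
      · have hDi : D i = Y ∩ sq x i := if_pos h
        rw [hDi]
        refine (hW n).2 Y hYW _ h ?_
        rintro rfl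
        exact hno (mem_range_self i)
      · have hDi : D i = ∅ := if_neg h
        rw [hDi]
        exact hI.empty
    refine hYB (hI.mono _ (hI.normal D hD) _ ?_)
    rintro η ⟨hηY, _, hη⟩
    obtain ⟨i, hi, hiW, hηi⟩ := hη n
    refine ⟨i, hi, ?_⟩
    have hDi : D i = Y ∩ sq x i := if_pos hiW
    rw [hDi]
    exact ⟨hηY, hηi⟩
  refine (mk_le_mk_of_subset hsub).trans (mk_range_le.trans ?_)
  rw [card_W1]

/-! ### The space of codes -/

/-- The initial ordinal of the cardinal `2^ℵ₁`, as a set. -/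
noncomputable def kk : ZFSet.{0} := ((2 : Cardinal.{0}) ^ ℵ₁).ord.toZFSet

theorem card_kk : ℵ₀ < kk.card := by
  rw [kk, card_toZFSet, card_ord]
  exact (aleph0_lt_aleph_one).trans (cantor _)

theorem exists_coding : ∃ (sq : ZFSet.{0} → W1 → Set W1) (cd : (W1 → Set W1) → ZFSet.{0}),
    Coding kk sq cd := by
  have h1 : #(W1 → Set W1) = #((2 : Cardinal.{0}) ^ ℵ₁).ord.ToType := by
    rw [mk_toType, card_ord, ← power_def, mk_set, card_W1, ← power_mul,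
      mul_eq_self (aleph0_le_aleph 1)]
  obtain ⟨e⟩ := Cardinal.eq.1 h1
  let cd : (W1 → Set W1) → ZFSet.{0} := fun s => (ToType.toOrd (e s) : Ordinal.{0}).toZFSet
  have hinj : Function.Injective cd := by
    intro s t h
    exact e.injective (ToType.mk.symm.injective (Subtype.ext (toZFSet_injective h)))
  refine ⟨Function.invFun cd, cd, ?_, ?_, ?_⟩
  · have h : (ω₁ : Ordinal.{0}) ≤ ((2 : Cardinal.{0}) ^ ℵ₁).ord := by
      rw [← ord_aleph, ord_le_ord]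
      exact (cantor _).le
    intro z hz
    rw [w1, mem_toZFSet_iff] at hz
    rw [kk, mem_toZFSet_iff]
    obtain ⟨a, ha, rfl⟩ := hz
    exact ⟨a, ha.trans_le h, rfl⟩
  · intro s
    rw [kk, mem_toZFSet_iff]
    exact ⟨_, (ToType.toOrd (e s)).2, rfl⟩
  · exact Function.leftInverse_invFun hinj

/-- Under the 0-1 law for open set mappings, every normal precipitous ideal on `ω₁` is
presaturated. -/
theorem result : ZeroOneLaw → ∀ I : Set (Set (ω₁ : Ordinal.{0}).ToType), IsNormalIdeal I →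
    Precipitous I → Presaturated I := by
  intro h I hI hP
  obtain ⟨sq, cd, hc⟩ := exists_coding
  obtain ⟨θ, hθ, hH⟩ := exists_theta (ctbl kk)
  have hθ' : ℵ₀ < θ := card_kk.trans (card_lt_of_H (X_mem_H hH))
  exact presat hc hθ' hH (h kk θ card_kk hθ hH) hI hP

end Pool.Agent.Results.MP_4b9105_lc.PrecipitousPresaturated
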